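import Mathlib

/-!
# Subsequences avoiding a pattern

Words, subsequences, isomorphism of words, and the extremal functions `LSS` and `ss`.
-/

namespace Pool.Agent.Work.MP_79a1cb_co

/-- The words `w` and `v`, both of length `n`, are isomorphic: an injective renaming `ρ` of the
letters of `w` turns `w` into `v`. -/
def IsIso {α β : Type} {n : ℕ} (w : Fin n → α) (v : Fin n → β) : Prop :=
  ∃ ρ : α → β, Set.InjOn ρ (Set.range w) ∧ ∀ i, ρ (w i) = v i

/-- The word `u` is `v`-free: no subsequence `u ∘ f` of `u` is isomorphic to `v`. -/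
def IsFree {α β : Type} {m n : ℕ} (u : Fin m → α) (v : Fin n → β) : Prop :=
  ∀ f : Fin n → Fin m, StrictMono f → ¬ IsIso (u ∘ f) v

/-- `LSS u v` is the largest length of a `v`-free subsequence `u ∘ f` of `u`. -/
noncomputable def LSS {α β : Type} {m n : ℕ} (u : Fin m → α) (v : Fin n → β) : ℕ :=
  sSup {l : ℕ | ∃ f : Fin l → Fin m, StrictMono f ∧ IsFree (u ∘ f) v}

/-- `ss m v` is the least value of `LSS u v`, over all words `u` of length `m` over all
alphabets. -/
noncomputable def ss {β : Type} {n : ℕ} (m : ℕ) (v : Fin n → β) : ℕ :=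
  sInf {l : ℕ | ∃ (α : Type) (u : Fin m → α), LSS u v = l}

/-- The alternation `a b a b ...` with `n` letters; here `a` is `0` and `b` is `1`. -/
def alt (n : ℕ) : Fin n → ℕ := fun i => i.val % 2

end Pool.Agent.Work.MP_79a1cb_co
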