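import Mathlib

/-!
# Fan structures

Ordered set systems (letters with sets of slots) such that, reading the slots from left to
right and, in each slot, the letters in increasing order, one obtains an ababa-free sequence in
which every letter occurs `k` times; the first occurrences are grouped into fans of size `m`.
-/

namespace Pool.Agent.Work.MP_79a1cb_co

open Finset

/-- `(s, a)` comes before `(s', b)` in the reading order. -/
def Bef {L S : Type} [LinearOrder L] [LinearOrder S] (s : S) (a : L) (s' : S) (b : L) : Prop :=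
  s < s' ∨ (s = s' ∧ a < b)

/-- A fan structure with `k` occurrences of every letter and fans of size `m`. -/
structure FanStruct (k m : ℕ) where
  /-- letters -/
  L : Type
  /-- slots -/
  S : Type
  [fL : Fintype L]
  [oL : LinearOrder L]
  [oS : LinearOrder S]
  /-- the slots of a letter -/
  inc : L → Finset S
  /-- the first slot of a letter -/
  first : L → S
  /-- the slots which are fans -/
  G : Finset S
  G_ne : G.Nonempty
  first_mem : ∀ a, first a ∈ inc a
  first_le : ∀ a, ∀ s ∈ inc a, first a ≤ s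
  card_inc : ∀ a, (inc a).card = k
  first_G : ∀ a, first a ∈ G
  fan_only : ∀ a, ∀ s ∈ inc a, s ∈ G → first a = s
  fan_card : ∀ s ∈ G, (univ.filter fun a => first a = s).card = m
  nest : ∀ a b, a < b → first a = first b → ∀ s ∈ inc b, ∀ s' ∈ inc a, s' ≠ first a → s < s'
  free : ∀ a b, a ≠ b → ∀ s₁ ∈ inc a, ∀ s₂ ∈ inc b, ∀ s₃ ∈ inc a, ∀ s₄ ∈ inc b, ∀ s₅ ∈ inc a,
    Bef s₁ a s₂ b → Bef s₂ b s₃ a → Bef s₃ a s₄ b → Bef s₄ b s₅ a → False

attribute [instance] FanStruct.fL FanStruct.oL FanStruct.oS

namespace FanStruct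

variable {k m : ℕ}

/-- The number of used slots. -/
def used (F : FanStruct k m) : ℕ := (univ.biUnion F.inc).card

lemma card_L (F : FanStruct k m) : Fintype.card F.L = m * F.G.card := by
  rw [← Finset.card_univ]
  have h := Finset.card_eq_sum_card_fiberwise (s := (univ : Finset F.L)) (f := F.first)
    (t := F.G) (fun a _ => F.first_G a)
  rw [h, Finset.sum_congr rfl F.fan_card, Finset.sum_const, smul_eq_mul, mul_comm]

end FanStruct

/-- An order-reversing matching between two finite sets of the same size. -/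
lemma exists_anti {α β : Type} [LinearOrder α] [LinearOrder β] (X : Finset α) (Y : Finset β)
    (h : X.card = Y.card) (hY : Y.Nonempty) :
    ∃ φ : α → β, (∀ x ∈ X, φ x ∈ Y) ∧ (∀ x ∈ X, ∀ x' ∈ X, x < x' → φ x' < φ x) ∧
      ∀ y ∈ Y, ∃ x ∈ X, φ x = y := by
  classical
  obtain ⟨y0, hy0⟩ := hY
  set e := X.orderIsoOfFin h with he
  set e' := Y.orderIsoOfFin rfl with he'
  refine ⟨fun x => if hx : x ∈ X then (e' (Fin.rev (e.symm ⟨x, hx⟩)) : β) else y0, ?_, ?_, ?_⟩
  · intro x hx
    simp only [hx, dif_pos]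
    exact (e' _).2
  · intro x hx x' hx' hlt
    simp only [hx, hx', dif_pos]
    have h1 : e.symm ⟨x, hx⟩ < e.symm ⟨x', hx'⟩ := e.symm.strictMono hlt
    have h2 : Fin.rev (e.symm ⟨x', hx'⟩) < Fin.rev (e.symm ⟨x, hx⟩) := Fin.rev_lt_rev.mpr h1
    exact e'.strictMono h2
  · intro y hy
    refine ⟨e (Fin.rev (e'.symm ⟨y, hy⟩)), (e _).2, ?_⟩
    simp

/-- Base: a single slot with `m` letters. -/
def baseOne (m : ℕ) : FanStruct 1 m where
  L := Fin m
  S := ℕ
  inc _ := {0}
  first _ := 0
  G := {0}
  G_ne := ⟨0, by simp⟩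
  first_mem _ := by simp
  first_le _ s hs := Nat.zero_le _
  card_inc _ := by simp
  first_G _ := by simp
  fan_only _ s hs _ := by simpa using (Finset.mem_singleton.mp hs).symm
  fan_card s hs := by
    rw [Finset.mem_singleton] at hs
    subst hs
    simp
  nest a b _ _ s hs s' hs' hne := by
    rw [Finset.mem_singleton] at hs'
    exact absurd hs' hne
  free a b hab s₁ h₁ s₂ h₂ s₃ h₃ s₄ h₄ s₅ h₅ b1 b2 b3 b4 := by
    rw [Finset.mem_singleton] at h₁ h₂ h₃ h₄ h₅
    subst h₁ h₂ h₃ h₄ h₅
    rcases b1 with b1 | ⟨_, b1⟩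
    · exact lt_irrefl _ b1
    · rcases b2 with b2 | ⟨_, b2⟩
      · exact lt_irrefl _ b2
      · exact lt_asymm b1 b2

lemma baseOne_used (m : ℕ) : (baseOne m).used ≤ 1 := by
  unfold FanStruct.used
  have : (univ.biUnion (baseOne m).inc) ⊆ ({0} : Finset ℕ) := by
    intro s hs
    rw [Finset.mem_biUnion] at hs
    obtain ⟨_, _, h⟩ := hs
    exact h
  exact (Finset.card_le_card this).trans (le_of_eq (Finset.card_singleton (0 : ℕ)))

/-- Base: `q` letters, each of them alone in `k` slots of its own. -/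
def baseTwo (k q : ℕ) (hk : 0 < k) (hq : 0 < q) : FanStruct k 1 where
  L := Fin q
  S := ℕ
  inc a := Finset.Ico (a * k) (a * k + k)
  first a := a * k
  G := (Finset.range q).image fun i => i * k
  G_ne := by
    refine ⟨0, ?_⟩
    rw [Finset.mem_image]
    exact ⟨0, by simpa using hq, by simp⟩
  first_mem a := by
    rw [Finset.mem_Ico]
    omega
  first_le a s hs := (Finset.mem_Ico.mp hs).1
  card_inc a := by simp
  first_G a := by
    rw [Finset.mem_image]
    exact ⟨a, by simp, rfl⟩
  fan_only a s hs hG := by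
    rw [Finset.mem_image] at hG
    obtain ⟨i, _, rfl⟩ := hG
    rw [Finset.mem_Ico] at hs
    obtain ⟨h1, h2⟩ := hs
    have h3 : (a : ℕ) ≤ i := Nat.le_of_mul_le_mul_right h1 hk
    have h4 : i < a + 1 := by
      by_contra h
      push Not at h
      have := Nat.mul_le_mul_right k h
      rw [add_mul, one_mul] at this
      omega
    have : i = a := by omega
    rw [this]
  fan_card s hs := by
    rw [Finset.mem_image] at hs
    obtain ⟨i, hi, rfl⟩ := hs
    rw [Finset.mem_range] at hi
    rw [Finset.card_eq_one]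
    refine ⟨⟨i, hi⟩, ?_⟩
    ext a
    simp only [Finset.mem_filter, Finset.mem_univ, true_and, Finset.mem_singleton]
    constructor
    · intro h
      apply Fin.ext
      exact Nat.eq_of_mul_eq_mul_right hk h
    · rintro rfl
      rfl
  nest a b hab h := by
    exfalso
    have := Nat.eq_of_mul_eq_mul_right hk h
    exact absurd (Fin.ext this) hab.ne
  free a b hab s₁ h₁ s₂ h₂ s₃ h₃ s₄ h₄ s₅ h₅ b1 b2 b3 b4 := by
    rw [Finset.mem_Ico] at h₁ h₂ h₃
    have hab' : (a : ℕ) ≠ b := fun h => hab (Fin.ext h)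
    have c1 : s₁ ≤ s₂ := by
      rcases b1 with b1 | ⟨b1, _⟩
      · exact b1.le
      · exact b1.le
    have c2 : s₂ ≤ s₃ := by
      rcases b2 with b2 | ⟨b2, _⟩
      · exact b2.le
      · exact b2.le
    rcases Nat.lt_or_gt_of_ne hab' with h | h
    · have : (a + 1 : ℕ) * k ≤ b * k := Nat.mul_le_mul_right k h
      rw [add_mul, one_mul] at this
      omega
    · have : (b + 1 : ℕ) * k ≤ a * k := Nat.mul_le_mul_right k h
      rw [add_mul, one_mul] at this
      omega

lemma baseTwo_used (k q : ℕ) (hk : 0 < k) (hq : 0 < q) : (baseTwo k q hk hq).used ≤ k * q := by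
  unfold FanStruct.used
  refine (Finset.card_biUnion_le).trans ?_
  rw [Finset.sum_congr rfl fun a _ => (baseTwo k q hk hq).card_inc a]
  rw [Finset.sum_const, smul_eq_mul, Finset.card_univ]
  have : Fintype.card (baseTwo k q hk hq).L = q := Fintype.card_fin q
  rw [this, mul_comm]

lemma baseTwo_G (k q : ℕ) (hk : 0 < k) (hq : 0 < q) : (baseTwo k q hk hq).G.card = q := by
  change ((Finset.range q).image fun i => i * k).card = q
  rw [Finset.card_image_of_injective _ (fun a b h => Nat.eq_of_mul_eq_mul_right hk h),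
    Finset.card_range]

end Pool.Agent.Work.MP_79a1cb_co
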