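import Mathlib
import Pool.Agent.Work.MP_79a1cb_co.Fan

namespace Pool.Agent.Work.MP_79a1cb_co

open Finset

section
variable {k m f : ℕ} (T : FanStruct k f) (R : FanStruct (k + 1) m)

/-- letters of the composition -/
abbrev NL : Type := Lex (T.L ⊕ Lex ({σ : T.S // σ ∈ T.G} × R.L))

/-- slots of the composition -/
abbrev NS : Type := Lex (T.S × WithTop R.S)

lemma exists_phi (hf : f = R.G.card) : ∃ φ : T.L → R.S, (∀ x, φ x ∈ R.G) ∧
    (∀ x x', T.first x = T.first x' → x < x' → φ x' < φ x) ∧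
    ∀ σ ∈ T.G, ∀ γ ∈ R.G, ∃ x, T.first x = σ ∧ φ x = γ := by
  classical
  have h : ∀ σ : T.S, ∃ φ : T.L → R.S, σ ∈ T.G →
      (∀ x ∈ univ.filter (fun a => T.first a = σ), φ x ∈ R.G) ∧
      (∀ x ∈ univ.filter (fun a => T.first a = σ), ∀ x' ∈ univ.filter (fun a => T.first a = σ),
        x < x' → φ x' < φ x) ∧
      ∀ y ∈ R.G, ∃ x ∈ univ.filter (fun a => T.first a = σ), φ x = y := by
    intro σ
    by_cases hσ : σ ∈ T.G
    · obtain ⟨φ, h1, h2, h3⟩ := exists_anti (univ.filter (fun a => T.first a = σ)) R.G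
        (by rw [T.fan_card σ hσ, hf]) R.G_ne
      exact ⟨φ, fun _ => ⟨h1, h2, h3⟩⟩
    · obtain ⟨y, _⟩ := R.G_ne
      exact ⟨fun _ => y, fun h => absurd h hσ⟩
  choose Φ hΦ using h
  refine ⟨fun x => Φ (T.first x) x, ?_, ?_, ?_⟩
  · intro x
    exact (hΦ (T.first x) (T.first_G x)).1 x (by simp)
  · intro x x' h hlt
    have h2 := (hΦ (T.first x) (T.first_G x)).2.1 x (by simp) x' (by simp [h]) hlt
    simp only
    rw [← h]
    exact h2
  · intro σ hσ γ hγ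
    obtain ⟨x, hx, h4⟩ := (hΦ σ hσ).2.2 γ hγ
    simp only [Finset.mem_filter, Finset.mem_univ, true_and] at hx
    refine ⟨x, hx, ?_⟩
    simp only
    rw [hx]
    exact h4

variable {T R}

/-- slots of an old letter -/
def incL (φ : T.L → R.S) (x : T.L) : Finset (NS T R) :=
  insert (toLex (T.first x, (φ x : WithTop R.S)))
    ((T.inc x).image fun τ => toLex (τ, (⊤ : WithTop R.S)))

/-- slots of a new letter -/
def incR (p : {σ : T.S // σ ∈ T.G} × R.L) : Finset (NS T R) :=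
  (R.inc p.2).image fun s : R.S => toLex ((p.1 : T.S), ((s : R.S) : WithTop R.S))

/-- slots of a letter -/
def incN (φ : T.L → R.S) (x : NL T R) : Finset (NS T R) :=
  Sum.elim (incL φ) (fun p => incR (ofLex p)) (ofLex x)

/-- first slot -/
def firstN (φ : T.L → R.S) (x : NL T R) : NS T R :=
  Sum.elim (fun x => toLex (T.first x, (φ x : WithTop R.S)))
    (fun p => toLex (((ofLex p).1 : T.S), (R.first (ofLex p).2 : WithTop R.S))) (ofLex x)

lemma ns_lt (a c : T.S) (b d : WithTop R.S) :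
    (toLex (a, b) : NS T R) < toLex (c, d) ↔ a < c ∨ (a = c ∧ b < d) :=
  Prod.Lex.toLex_lt_toLex

lemma ns_le (a c : T.S) (b d : WithTop R.S) :
    (toLex (a, b) : NS T R) ≤ toLex (c, d) ↔ a < c ∨ (a = c ∧ b ≤ d) :=
  Prod.Lex.toLex_le_toLex

lemma ns_eq (a c : T.S) (b d : WithTop R.S) :
    (toLex (a, b) : NS T R) = toLex (c, d) ↔ a = c ∧ b = d := by
  constructor
  · intro h
    have := toLex_inj.mp h
    exact ⟨congrArg Prod.fst this, congrArg Prod.snd this⟩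
  · rintro ⟨rfl, rfl⟩
    rfl

lemma mem_incL (φ : T.L → R.S) (x : T.L) (s : NS T R) :
    s ∈ incL φ x ↔ s = toLex (T.first x, (φ x : WithTop R.S)) ∨
      ∃ τ ∈ T.inc x, s = toLex (τ, (⊤ : WithTop R.S)) := by
  unfold incL
  rw [Finset.mem_insert, Finset.mem_image]
  constructor
  · rintro (h | ⟨τ, h1, h2⟩)
    · exact Or.inl h
    · exact Or.inr ⟨τ, h1, h2.symm⟩
  · rintro (h | ⟨τ, h1, h2⟩)
    · exact Or.inl h
    · exact Or.inr ⟨τ, h1, h2.symm⟩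

lemma mem_incR (p : {σ : T.S // σ ∈ T.G} × R.L) (s : NS T R) :
    s ∈ incR p ↔ ∃ r ∈ R.inc p.2, s = toLex ((p.1 : T.S), ((r : R.S) : WithTop R.S)) := by
  unfold incR
  rw [Finset.mem_image]
  constructor
  · rintro ⟨τ, h1, h2⟩
    exact ⟨τ, h1, h2.symm⟩
  · rintro ⟨τ, h1, h2⟩
    exact ⟨τ, h1, h2.symm⟩

/-- The reading order for two old letters: reduction to `T`. -/
lemma old_old (φ : T.L → R.S)
    (h2 : ∀ x x', T.first x = T.first x' → x < x' → φ x' < φ x)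
    (a b : T.L) (hab : a ≠ b) (s₁ s₂ s₃ s₄ s₅ : NS T R)
    (m₁ : s₁ ∈ incL φ a) (m₂ : s₂ ∈ incL φ b) (m₃ : s₃ ∈ incL φ a) (m₄ : s₄ ∈ incL φ b)
    (m₅ : s₅ ∈ incL φ a)
    (b1 : s₁ < s₂ ∨ (s₁ = s₂ ∧ a < b)) (b2 : s₂ < s₃ ∨ (s₂ = s₃ ∧ b < a))
    (b3 : s₃ < s₄ ∨ (s₃ = s₄ ∧ a < b)) (b4 : s₄ < s₅ ∨ (s₄ = s₅ ∧ b < a)) : False := by
  rw [mem_incL] at m₁ m₂ m₃ m₄ m₅
  -- s₁ < s₃ < s₅ and s₂ < s₄
  have l12 : s₁ ≤ s₂ := by rcases b1 with h | ⟨h, _⟩; exacts [h.le, h.le]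
  have l23 : s₂ ≤ s₃ := by rcases b2 with h | ⟨h, _⟩; exacts [h.le, h.le]
  have l34 : s₃ ≤ s₄ := by rcases b3 with h | ⟨h, _⟩; exacts [h.le, h.le]
  have l45 : s₄ ≤ s₅ := by rcases b4 with h | ⟨h, _⟩; exacts [h.le, h.le]
  have l13 : s₁ < s₃ := by
    rcases b1 with h | ⟨h, h'⟩
    · exact lt_of_lt_of_le h l23
    · rcases b2 with g | ⟨g, g'⟩
      · exact lt_of_le_of_lt l12 g
      · exact absurd h' (lt_asymm g')
  have l24 : s₂ < s₄ := by
    rcases b2 with h | ⟨h, h'⟩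
    · exact lt_of_lt_of_le h l34
    · rcases b3 with g | ⟨g, g'⟩
      · exact lt_of_le_of_lt l23 g
      · exact absurd h' (lt_asymm g')
  -- the new element is the least one
  have least : ∀ x : T.L, ∀ s, s ∈ incL φ x → (toLex (T.first x, (φ x : WithTop R.S)) : NS T R) ≤ s := by
    intro x s hs
    rw [mem_incL] at hs
    rcases hs with rfl | ⟨τ, hτ, rfl⟩
    · exact le_refl _
    · rw [ns_le]
      rcases (T.first_le x τ hτ).lt_or_eq with h | h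
      · exact Or.inl h
      · exact Or.inr ⟨h, le_top⟩
  -- s₃, s₄, s₅ are old
  obtain ⟨τ₃, hτ₃, rfl⟩ : ∃ τ ∈ T.inc a, s₃ = toLex (τ, (⊤ : WithTop R.S)) := by
    rcases m₃ with rfl | h
    · exfalso
      have := least a s₁ ((mem_incL φ a s₁).mpr m₁)
      exact absurd l13 (not_lt.mpr this)
    · exact h
  obtain ⟨τ₄, hτ₄, rfl⟩ : ∃ τ ∈ T.inc b, s₄ = toLex (τ, (⊤ : WithTop R.S)) := by
    rcases m₄ with rfl | h
    · exfalso
      have := least b s₂ ((mem_incL φ b s₂).mpr m₂)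
      exact absurd l24 (not_lt.mpr this)
    · exact h
  obtain ⟨τ₅, hτ₅, rfl⟩ : ∃ τ ∈ T.inc a, s₅ = toLex (τ, (⊤ : WithTop R.S)) := by
    rcases m₅ with rfl | h
    · exfalso
      have := least a s₁ ((mem_incL φ a s₁).mpr m₁)
      have h6 : s₁ < toLex (T.first a, (φ a : WithTop R.S)) :=
        lt_of_lt_of_le l13 (l34.trans l45)
      exact absurd h6 (not_lt.mpr this)
    · exact h
  -- translate b3, b4
  have c3 : Bef τ₃ a τ₄ b := by
    rcases b3 with h | ⟨h, h'⟩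
    · rw [ns_lt] at h
      rcases h with h | ⟨_, h⟩
      · exact Or.inl h
      · exact absurd h (lt_irrefl _)
    · rw [ns_eq] at h
      exact Or.inr ⟨h.1, h'⟩
  have c4 : Bef τ₄ b τ₅ a := by
    rcases b4 with h | ⟨h, h'⟩
    · rw [ns_lt] at h
      rcases h with h | ⟨_, h⟩
      · exact Or.inl h
      · exact absurd h (lt_irrefl _)
    · rw [ns_eq] at h
      exact Or.inr ⟨h.1, h'⟩
  have d45 : τ₄ ≤ τ₅ := by rcases c4 with h | ⟨h, _⟩; exacts [h.le, h.le]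
  have d34 : τ₃ ≤ τ₄ := by rcases c3 with h | ⟨h, _⟩; exacts [h.le, h.le]
  rcases m₂ with rfl | ⟨τ₂, hτ₂, rfl⟩
  · -- s₂ is the new element of b
    have e23 : T.first b ≤ τ₃ := by
      rw [ns_le] at l23
      rcases l23 with h | ⟨h, _⟩
      · exact h.le
      · exact h.le
    rcases m₁ with rfl | ⟨τ₁, hτ₁, rfl⟩
    · -- s₁ is the new element of a
      have e12 : T.first a < T.first b ∨ (T.first a = T.first b ∧ φ a < φ b) := by
        rcases b1 with h | ⟨h, h'⟩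
        · rw [ns_lt] at h
          rcases h with h | ⟨h, h'⟩
          · exact Or.inl h
          · exact Or.inr ⟨h, by exact_mod_cast h'⟩
        · rw [ns_eq] at h
          exfalso
          have h5 : φ a = φ b := by exact_mod_cast h.2
          have := h2 a b h.1 h'
          rw [h5] at this
          exact lt_irrefl _ this
      rcases e12 with h | ⟨h, h'⟩
      · -- chain in T
        refine T.free a b hab (T.first a) (T.first_mem a) (T.first b) (T.first_mem b) τ₃ hτ₃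
          τ₄ hτ₄ τ₅ hτ₅ (Or.inl h) ?_ c3 c4
        rcases e23.lt_or_eq with g | g
        · exact Or.inl g
        · exfalso
          have := T.fan_only a τ₃ hτ₃ (by rw [← g]; exact T.first_G b)
          rw [this, ← g] at h
          exact lt_irrefl _ h
      · -- same fan, b < a
        have hba : b < a := by
          rcases lt_or_gt_of_ne hab with g | g
          · exact absurd (h2 a b h g) (lt_asymm h')
          · exact g
        have hlt : τ₃ < τ₄ := by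
          rcases c3 with g | ⟨_, g⟩
          · exact g
          · exact absurd g (lt_asymm hba)
        have h7 : τ₄ ≠ T.first b := by
          have := T.first_le a τ₃ hτ₃
          rw [h] at this
          exact (lt_of_le_of_lt this hlt).ne'
        have := T.nest b a hba h.symm τ₅ hτ₅ τ₄ hτ₄ h7
        exact absurd d45 (not_le.mpr this)
    · -- s₁ old
      have e12 : τ₁ < T.first b := by
        rw [ns_le] at l12
        rcases l12 with h | ⟨_, h⟩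
        · exact h
        · exact absurd h (by simp)
      refine T.free a b hab τ₁ hτ₁ (T.first b) (T.first_mem b) τ₃ hτ₃ τ₄ hτ₄ τ₅ hτ₅
        (Or.inl e12) ?_ c3 c4
      rcases e23.lt_or_eq with g | g
      · exact Or.inl g
      · exfalso
        have h8 := T.fan_only a τ₃ hτ₃ (by rw [← g]; exact T.first_G b)
        have h9 := T.first_le a τ₁ hτ₁
        rw [h8, ← g] at h9
        exact absurd e12 (not_lt.mpr h9)
  · -- s₂ old
    have c2 : Bef τ₂ b τ₃ a := by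
      rcases b2 with h | ⟨h, h'⟩
      · rw [ns_lt] at h
        rcases h with h | ⟨_, h⟩
        · exact Or.inl h
        · exact absurd h (lt_irrefl _)
      · rw [ns_eq] at h
        exact Or.inr ⟨h.1, h'⟩
    have d24 : τ₂ < τ₄ := by
      rw [ns_lt] at l24
      rcases l24 with h | ⟨_, h⟩
      · exact h
      · exact absurd h (lt_irrefl _)
    rcases m₁ with rfl | ⟨τ₁, hτ₁, rfl⟩
    · -- s₁ new
      have e12 : T.first a ≤ τ₂ := by
        rw [ns_le] at l12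
        rcases l12 with h | ⟨h, _⟩
        · exact h.le
        · exact h.le
      rcases e12.lt_or_eq with g | g
      · exact T.free a b hab (T.first a) (T.first_mem a) τ₂ hτ₂ τ₃ hτ₃ τ₄ hτ₄ τ₅ hτ₅
          (Or.inl g) c2 c3 c4
      · rcases lt_or_gt_of_ne hab with hlt | hba
        · exact T.free a b hab (T.first a) (T.first_mem a) τ₂ hτ₂ τ₃ hτ₃ τ₄ hτ₄ τ₅ hτ₅
            (Or.inr ⟨g, hlt⟩) c2 c3 c4
        · have h10 := T.fan_only b τ₂ hτ₂ (by rw [← g]; exact T.first_G a)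
          have h11 : T.first b = T.first a := by rw [h10, g]
          have h7 : τ₄ ≠ T.first b := by
            rw [h10]
            exact d24.ne'
          have := T.nest b a hba h11 τ₅ hτ₅ τ₄ hτ₄ h7
          exact absurd d45 (not_le.mpr this)
    · -- all old
      have c1 : Bef τ₁ a τ₂ b := by
        rcases b1 with h | ⟨h, h'⟩
        · rw [ns_lt] at h
          rcases h with h | ⟨_, h⟩
          · exact Or.inl h
          · exact absurd h (lt_irrefl _)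
        · rw [ns_eq] at h
          exact Or.inr ⟨h.1, h'⟩
      exact T.free a b hab τ₁ hτ₁ τ₂ hτ₂ τ₃ hτ₃ τ₄ hτ₄ τ₅ hτ₅ c1 c2 c3 c4

/-- Four comparisons of five elements, weakly. -/
lemma chain_aux {X Y : Type} [LinearOrder X] [LinearOrder Y] (a b : Y)
    {s₁ s₂ s₃ s₄ s₅ : X}
    (b1 : s₁ < s₂ ∨ (s₁ = s₂ ∧ a < b)) (b2 : s₂ < s₃ ∨ (s₂ = s₃ ∧ b < a))
    (b3 : s₃ < s₄ ∨ (s₃ = s₄ ∧ a < b)) (b4 : s₄ < s₅ ∨ (s₄ = s₅ ∧ b < a)) :
    s₁ ≤ s₂ ∧ s₂ ≤ s₃ ∧ s₃ ≤ s₄ ∧ s₄ ≤ s₅ ∧ s₁ < s₃ ∧ s₂ < s₄ ∧ s₃ < s₅ := by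
  have l12 : s₁ ≤ s₂ := by rcases b1 with h | ⟨h, _⟩; exacts [h.le, h.le]
  have l23 : s₂ ≤ s₃ := by rcases b2 with h | ⟨h, _⟩; exacts [h.le, h.le]
  have l34 : s₃ ≤ s₄ := by rcases b3 with h | ⟨h, _⟩; exacts [h.le, h.le]
  have l45 : s₄ ≤ s₅ := by rcases b4 with h | ⟨h, _⟩; exacts [h.le, h.le]
  have l13 : s₁ < s₃ := by
    rcases b1 with h | ⟨h, h'⟩
    · exact lt_of_lt_of_le h l23
    · rcases b2 with g | ⟨g, g'⟩
      · exact lt_of_le_of_lt l12 g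
      · exact absurd h' (lt_asymm g')
  have l24 : s₂ < s₄ := by
    rcases b2 with h | ⟨h, h'⟩
    · exact lt_of_lt_of_le h l34
    · rcases b3 with g | ⟨g, g'⟩
      · exact lt_of_le_of_lt l23 g
      · exact absurd h' (lt_asymm g')
  have l35 : s₃ < s₅ := by
    rcases b3 with h | ⟨h, h'⟩
    · exact lt_of_lt_of_le h l45
    · rcases b4 with g | ⟨g, g'⟩
      · exact lt_of_le_of_lt l34 g
      · exact absurd h' (lt_asymm g')
  exact ⟨l12, l23, l34, l45, l13, l24, l35⟩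

/-- An element between two elements of the block of `σ` lies in that block. -/
lemma between_block {σ : T.S} {r r' : R.S} {τ : T.S} {ρ : WithTop R.S}
    (h1 : (toLex (σ, (r : WithTop R.S)) : NS T R) ≤ toLex (τ, ρ))
    (h2 : (toLex (τ, ρ) : NS T R) ≤ toLex (σ, (r' : WithTop R.S))) :
    τ = σ ∧ ρ ≠ ⊤ := by
  rw [ns_le] at h1 h2
  rcases h1 with h1 | ⟨h1, h1'⟩
  · rcases h2 with h2 | ⟨h2, h2'⟩
    · exact absurd h1 (lt_asymm h2)
    · rw [h2] at h1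
      exact absurd h1 (lt_irrefl _)
  · rcases h2 with h2 | ⟨h2, h2'⟩
    · rw [h1] at h2
      exact absurd h2 (lt_irrefl _)
    · refine ⟨h2, ?_⟩
      rintro rfl
      exact absurd h2' (by simp)

/-- old letter as `a`, new letter as `b` -/
lemma old_new (φ : T.L → R.S) (x : T.L) (p : {σ : T.S // σ ∈ T.G} × R.L)
    (s₁ s₂ s₃ s₄ : NS T R)
    (m₁ : s₁ ∈ incL φ x) (m₂ : s₂ ∈ incR p) (m₃ : s₃ ∈ incL φ x) (m₄ : s₄ ∈ incR p)
    (h13 : s₁ < s₃) (h23 : s₂ ≤ s₃) (h34 : s₃ ≤ s₄) : False := by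
  rw [mem_incL] at m₁ m₃
  rw [mem_incR] at m₂ m₄
  obtain ⟨r₂, _, rfl⟩ := m₂
  obtain ⟨r₄, _, rfl⟩ := m₄
  rcases m₃ with rfl | ⟨τ, hτ, rfl⟩
  · rcases m₁ with rfl | ⟨τ', hτ', rfl⟩
    · exact lt_irrefl _ h13
    · rw [ns_lt] at h13
      rcases h13 with h | ⟨_, h⟩
      · exact absurd h (not_lt.mpr (T.first_le x τ' hτ'))
      · exact absurd h (by simp)
  · exact (between_block h23 h34).2 rfl

/-- new letter as `a`, old letter as `b` -/
lemma new_old (φ : T.L → R.S) (x : T.L) (p : {σ : T.S // σ ∈ T.G} × R.L)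
    (s₁ s₂ s₄ s₅ : NS T R)
    (m₁ : s₁ ∈ incR p) (m₂ : s₂ ∈ incL φ x) (m₄ : s₄ ∈ incL φ x) (m₅ : s₅ ∈ incR p)
    (h12 : s₁ ≤ s₂) (h24 : s₂ < s₄) (h45 : s₄ ≤ s₅) : False := by
  rw [mem_incL] at m₂ m₄
  rw [mem_incR] at m₁ m₅
  obtain ⟨r₁, _, rfl⟩ := m₁
  obtain ⟨r₅, _, rfl⟩ := m₅
  rcases m₂ with rfl | ⟨τ, hτ, rfl⟩
  · rcases m₄ with rfl | ⟨τ', hτ', rfl⟩
    · exact lt_irrefl _ h24
    · exact (between_block (h12.trans h24.le) h45).2 rfl
  · exact (between_block h12 (h24.le.trans h45)).2 rfl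

/-- two new letters in different blocks -/
lemma new_new (p p' : {σ : T.S // σ ∈ T.G} × R.L) (hne : (p.1 : T.S) ≠ p'.1)
    (s₁ s₂ s₃ : NS T R)
    (m₁ : s₁ ∈ incR p) (m₂ : s₂ ∈ incR p') (m₃ : s₃ ∈ incR p)
    (h12 : s₁ ≤ s₂) (h23 : s₂ ≤ s₃) : False := by
  rw [mem_incR] at m₁ m₂ m₃
  obtain ⟨r₁, _, rfl⟩ := m₁
  obtain ⟨r₂, _, rfl⟩ := m₂
  obtain ⟨r₃, _, rfl⟩ := m₃
  exact hne (between_block h12 h23).1.symm

/-- two new letters in the same block -/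
lemma new_same (σ : {σ : T.S // σ ∈ T.G}) (y z : R.L) (hyz : y ≠ z)
    (s₁ s₂ s₃ s₄ s₅ : NS T R)
    (m₁ : s₁ ∈ incR (σ, y)) (m₂ : s₂ ∈ incR (σ, z)) (m₃ : s₃ ∈ incR (σ, y))
    (m₄ : s₄ ∈ incR (σ, z)) (m₅ : s₅ ∈ incR (σ, y))
    (b1 : s₁ < s₂ ∨ (s₁ = s₂ ∧ y < z)) (b2 : s₂ < s₃ ∨ (s₂ = s₃ ∧ z < y))
    (b3 : s₃ < s₄ ∨ (s₃ = s₄ ∧ y < z)) (b4 : s₄ < s₅ ∨ (s₄ = s₅ ∧ z < y)) : False := by
  rw [mem_incR] at m₁ m₂ m₃ m₄ m₅
  obtain ⟨r₁, hr₁, rfl⟩ := m₁
  obtain ⟨r₂, hr₂, rfl⟩ := m₂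
  obtain ⟨r₃, hr₃, rfl⟩ := m₃
  obtain ⟨r₄, hr₄, rfl⟩ := m₄
  obtain ⟨r₅, hr₅, rfl⟩ := m₅
  have key : ∀ (r r' : R.S) (y z : R.L),
      ((toLex ((σ : T.S), (r : WithTop R.S)) : NS T R) < toLex ((σ : T.S), (r' : WithTop R.S)) ∨
      ((toLex ((σ : T.S), (r : WithTop R.S)) : NS T R) = toLex ((σ : T.S), (r' : WithTop R.S)) ∧
        y < z)) → Bef r y r' z := by
    intro r r' y z h
    rcases h with h | ⟨h, h'⟩
    · rw [ns_lt] at h
      rcases h with h | ⟨_, h⟩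
      · exact absurd h (lt_irrefl _)
      · exact Or.inl (by exact_mod_cast h)
    · rw [ns_eq] at h
      exact Or.inr ⟨by exact_mod_cast h.2, h'⟩
  exact R.free y z hyz r₁ hr₁ r₂ hr₂ r₃ hr₃ r₄ hr₄ r₅ hr₅ (key _ _ _ _ b1) (key _ _ _ _ b2)
    (key _ _ _ _ b3) (key _ _ _ _ b4)

end

end Pool.Agent.Work.MP_79a1cb_co
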