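import Mathlib
import Pool.Agent.Work.MP_79a1cb_co.Compose

namespace Pool.Agent.Work.MP_79a1cb_co

open Finset

section
variable {k m f : ℕ} {T : FanStruct k f} {R : FanStruct (k + 1) m}

lemma card_incL (φ : T.L → R.S) (x : T.L) : (incL φ x : Finset (NS T R)).card = k + 1 := by
  unfold incL
  rw [Finset.card_insert_of_notMem, Finset.card_image_of_injective, T.card_inc]
  · intro τ τ' h
    exact ((ns_eq _ _ _ _).mp h).1
  · rw [Finset.mem_image]
    rintro ⟨τ, _, h⟩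
    have := ((ns_eq _ _ _ _).mp h).2
    exact absurd this (by simp)

lemma card_incR (p : {σ : T.S // σ ∈ T.G} × R.L) : (incR p : Finset (NS T R)).card = k + 1 := by
  unfold incR
  rw [Finset.card_image_of_injective, R.card_inc]
  intro s s' h
  have := ((ns_eq _ _ _ _).mp h).2
  exact_mod_cast this

/-- the fans of the composition -/
def GN : Finset (NS T R) :=
  (T.G ×ˢ R.G).image fun q => toLex (q.1, ((q.2 : R.S) : WithTop R.S))

lemma mem_GN (s : NS T R) :
    s ∈ GN ↔ ∃ σ ∈ T.G, ∃ γ ∈ R.G, s = toLex (σ, ((γ : R.S) : WithTop R.S)) := by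
  unfold GN
  rw [Finset.mem_image]
  constructor
  · rintro ⟨⟨σ, γ⟩, h, rfl⟩
    rw [Finset.mem_product] at h
    exact ⟨σ, h.1, γ, h.2, rfl⟩
  · rintro ⟨σ, h1, γ, h2, rfl⟩
    exact ⟨(σ, γ), Finset.mem_product.mpr ⟨h1, h2⟩, rfl⟩

lemma card_GN : (GN : Finset (NS T R)).card = T.G.card * R.G.card := by
  unfold GN
  rw [Finset.card_image_of_injective, Finset.card_product]
  rintro ⟨σ, γ⟩ ⟨σ', γ'⟩ h
  have h' := (ns_eq _ _ _ _).mp h
  simp only at h'
  obtain ⟨h1, h2⟩ := h'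
  have h3 : γ = γ' := by exact_mod_cast h2
  rw [h1, h3]

lemma nl_cases (a : NL T R) : (∃ x : T.L, a = toLex (Sum.inl x)) ∨
    ∃ p : {σ : T.S // σ ∈ T.G} × R.L, a = toLex (Sum.inr (toLex p)) := by
  rcases h : ofLex a with x | p
  · left
    refine ⟨x, ?_⟩
    rw [← h]
    rfl
  · right
    refine ⟨ofLex p, ?_⟩
    have : toLex (ofLex p) = p := rfl
    rw [this, ← h]
    rfl

lemma incN_inl (φ : T.L → R.S) (x : T.L) :
    incN φ (toLex (Sum.inl x) : NL T R) = incL φ x := rfl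

lemma incN_inr (φ : T.L → R.S) (p : {σ : T.S // σ ∈ T.G} × R.L) :
    incN φ (toLex (Sum.inr (toLex p)) : NL T R) = incR p := rfl

lemma firstN_inl (φ : T.L → R.S) (x : T.L) :
    firstN φ (toLex (Sum.inl x) : NL T R) = toLex (T.first x, ((φ x : R.S) : WithTop R.S)) := rfl

lemma firstN_inr (φ : T.L → R.S) (p : {σ : T.S // σ ∈ T.G} × R.L) :
    firstN φ (toLex (Sum.inr (toLex p)) : NL T R) =
      toLex ((p.1 : T.S), ((R.first p.2 : R.S) : WithTop R.S)) := rfl

lemma nl_inl_lt (x x' : T.L) :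
    (toLex (Sum.inl x) : NL T R) < toLex (Sum.inl x') ↔ x < x' :=
  Sum.Lex.inl_lt_inl_iff

lemma nl_inr_lt (p p' : {σ : T.S // σ ∈ T.G} × R.L) :
    (toLex (Sum.inr (toLex p)) : NL T R) < toLex (Sum.inr (toLex p')) ↔
      p.1 < p'.1 ∨ (p.1 = p'.1 ∧ p.2 < p'.2) := by
  rw [Sum.Lex.toLex_lt_toLex, Sum.lex_inr_inr]
  exact Prod.Lex.toLex_lt_toLex

lemma nl_not_inr_lt (p : {σ : T.S // σ ∈ T.G} × R.L) (x : T.L) :
    ¬ (toLex (Sum.inr (toLex p)) : NL T R) < toLex (Sum.inl x) := by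
  exact Sum.Lex.not_inr_lt_inl

lemma first_le_N (φ : T.L → R.S) (a : NL T R) (s : NS T R) (hs : s ∈ incN φ a) :
    firstN φ a ≤ s := by
  rcases nl_cases a with ⟨x, rfl⟩ | ⟨p, rfl⟩
  · rw [incN_inl, mem_incL] at hs
    rw [firstN_inl]
    rcases hs with rfl | ⟨τ, hτ, rfl⟩
    · exact le_refl _
    · rw [ns_le]
      rcases (T.first_le x τ hτ).lt_or_eq with h | h
      · exact Or.inl h
      · exact Or.inr ⟨h, le_top⟩
  · rw [incN_inr, mem_incR] at hs
    rw [firstN_inr]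
    obtain ⟨r, hr, rfl⟩ := hs
    rw [ns_le]
    exact Or.inr ⟨rfl, by exact_mod_cast R.first_le _ r hr⟩

lemma fan_only_N (φ : T.L → R.S) (a : NL T R) (s : NS T R) (hs : s ∈ incN φ a)
    (hG : s ∈ (GN : Finset (NS T R))) : firstN φ a = s := by
  rw [mem_GN] at hG
  obtain ⟨σ, hσ, γ, hγ, rfl⟩ := hG
  rcases nl_cases a with ⟨x, rfl⟩ | ⟨p, rfl⟩
  · rw [incN_inl, mem_incL] at hs
    rcases hs with h | ⟨τ, hτ, h⟩
    · rw [firstN_inl]
      exact h.symm
    · have := ((ns_eq _ _ _ _).mp h).2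
      exact absurd this (by simp)
  · rw [incN_inr, mem_incR] at hs
    obtain ⟨r, hr, h⟩ := hs
    rw [ns_eq] at h
    have h2 : γ = r := by exact_mod_cast h.2
    rw [firstN_inr, ns_eq]
    refine ⟨h.1.symm, ?_⟩
    have := R.fan_only p.2 r hr (h2 ▸ hγ)
    rw [this, h2]

lemma fan_card_N (φ : T.L → R.S)
    (h2 : ∀ x x', T.first x = T.first x' → x < x' → φ x' < φ x)
    (h3 : ∀ σ ∈ T.G, ∀ γ ∈ R.G, ∃ x, T.first x = σ ∧ φ x = γ)
    (s : NS T R) (hs : s ∈ (GN : Finset (NS T R))) :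
    (univ.filter fun a : NL T R => firstN φ a = s).card = m + 1 := by
  classical
  rw [mem_GN] at hs
  obtain ⟨σ, hσ, γ, hγ, rfl⟩ := hs
  obtain ⟨x, hx, hx'⟩ := h3 σ hσ γ hγ
  have huniq : ∀ x', T.first x' = σ → φ x' = γ → x' = x := by
    intro x' g1 g2
    by_contra hne
    rcases lt_or_gt_of_ne hne with g | g
    · have := h2 x' x (by rw [g1, hx]) g
      rw [g2, hx'] at this
      exact lt_irrefl _ this
    · have := h2 x x' (by rw [g1, hx]) g
      rw [g2, hx'] at this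
      exact lt_irrefl _ this
  have key : (univ.filter fun a : NL T R => firstN φ a = toLex (σ, ((γ : R.S) : WithTop R.S))) =
      insert (toLex (Sum.inl x) : NL T R)
        ((univ.filter fun y : R.L => R.first y = γ).image
          fun y => (toLex (Sum.inr (toLex ((⟨σ, hσ⟩ : {σ : T.S // σ ∈ T.G}), y))) : NL T R)) := by
    ext a
    rw [Finset.mem_filter, Finset.mem_insert, Finset.mem_image]
    constructor
    · rintro ⟨_, h⟩
      rcases nl_cases a with ⟨x', rfl⟩ | ⟨p, rfl⟩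
      · rw [firstN_inl, ns_eq] at h
        left
        rw [huniq x' h.1 (by exact_mod_cast h.2)]
      · rw [firstN_inr, ns_eq] at h
        right
        refine ⟨p.2, ?_, ?_⟩
        · rw [Finset.mem_filter]
          exact ⟨Finset.mem_univ _, by exact_mod_cast h.2⟩
        · have : (⟨σ, hσ⟩ : {σ : T.S // σ ∈ T.G}) = p.1 := Subtype.ext h.1.symm
          rw [this]
    · rintro (rfl | ⟨y, hy, rfl⟩)
      · refine ⟨Finset.mem_univ _, ?_⟩
        rw [firstN_inl, hx, hx']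
      · refine ⟨Finset.mem_univ _, ?_⟩
        rw [firstN_inr, (Finset.mem_filter.mp hy).2]
  rw [key, Finset.card_insert_of_notMem, Finset.card_image_of_injective, R.fan_card γ hγ]
  · intro y y' h
    have h1 := Sum.inr_injective (toLex_inj.mp h)
    have h2 := toLex_inj.mp h1
    exact congrArg Prod.snd h2
  · rw [Finset.mem_image]
    rintro ⟨y, _, h⟩
    exact absurd (toLex_inj.mp h) (by simp)

lemma nest_N (φ : T.L → R.S)
    (h2 : ∀ x x', T.first x = T.first x' → x < x' → φ x' < φ x)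
    (a b : NL T R) (hab : a < b) (hfirst : firstN φ a = firstN φ b)
    (s : NS T R) (hs : s ∈ incN φ b) (s' : NS T R) (hs' : s' ∈ incN φ a)
    (hne : s' ≠ firstN φ a) : s < s' := by
  rcases nl_cases a with ⟨x, rfl⟩ | ⟨p, rfl⟩
  · rcases nl_cases b with ⟨x', rfl⟩ | ⟨p', rfl⟩
    · exfalso
      rw [firstN_inl, firstN_inl, ns_eq] at hfirst
      rw [nl_inl_lt] at hab
      have h5 : φ x = φ x' := by exact_mod_cast hfirst.2
      have := h2 x x' hfirst.1 hab
      rw [h5] at this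
      exact lt_irrefl _ this
    · rw [firstN_inl, firstN_inr, ns_eq] at hfirst
      rw [incN_inr, mem_incR] at hs
      rw [incN_inl, mem_incL] at hs'
      obtain ⟨r, hr, rfl⟩ := hs
      rcases hs' with rfl | ⟨τ, hτ, rfl⟩
      · exact absurd (firstN_inl φ x).symm hne
      · rw [ns_lt]
        have := T.first_le x τ hτ
        rw [hfirst.1] at this
        rcases this.lt_or_eq with h | h
        · exact Or.inl h
        · exact Or.inr ⟨h, WithTop.coe_lt_top _⟩
  · rcases nl_cases b with ⟨x', rfl⟩ | ⟨p', rfl⟩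
    · exact absurd hab (nl_not_inr_lt p x')
    · rw [firstN_inr, firstN_inr, ns_eq] at hfirst
      rw [firstN_inr] at hne
      rw [incN_inr, mem_incR] at hs hs'
      rw [nl_inr_lt] at hab
      have hp : p.1 = p'.1 := Subtype.ext hfirst.1
      have hfr : R.first p.2 = R.first p'.2 := by exact_mod_cast hfirst.2
      obtain ⟨r, hr, rfl⟩ := hs
      obtain ⟨r', hr', rfl⟩ := hs'
      have hlt : p.2 < p'.2 := by
        rcases hab with h | ⟨_, h⟩
        · rw [hp] at h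
          exact absurd h (lt_irrefl _)
        · exact h
      have := R.nest p.2 p'.2 hlt hfr r hr r' hr' (by
        intro h
        apply hne
        rw [h])
      rw [ns_lt]
      exact Or.inr ⟨hfirst.1.symm, by exact_mod_cast this⟩

lemma free_N (φ : T.L → R.S)
    (h2 : ∀ x x', T.first x = T.first x' → x < x' → φ x' < φ x)
    (a b : NL T R) (hab : a ≠ b) (s₁ : NS T R) (m₁ : s₁ ∈ incN φ a) (s₂ : NS T R)
    (m₂ : s₂ ∈ incN φ b) (s₃ : NS T R) (m₃ : s₃ ∈ incN φ a) (s₄ : NS T R) (m₄ : s₄ ∈ incN φ b)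
    (s₅ : NS T R) (m₅ : s₅ ∈ incN φ a)
    (b1 : Bef s₁ a s₂ b) (b2 : Bef s₂ b s₃ a) (b3 : Bef s₃ a s₄ b) (b4 : Bef s₄ b s₅ a) :
    False := by
  obtain ⟨l12, l23, l34, l45, l13, l24, l35⟩ := chain_aux a b b1 b2 b3 b4
  rcases nl_cases a with ⟨x, rfl⟩ | ⟨p, rfl⟩
  · rcases nl_cases b with ⟨x', rfl⟩ | ⟨p', rfl⟩
    · rw [incN_inl] at m₁ m₂ m₃ m₄ m₅
      unfold Bef at b1 b2 b3 b4
      rw [nl_inl_lt] at b1 b2 b3 b4
      exact old_old φ h2 x x' (by rintro rfl; exact hab rfl) s₁ s₂ s₃ s₄ s₅ m₁ m₂ m₃ m₄ m₅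
        b1 b2 b3 b4
    · rw [incN_inl] at m₁ m₃ m₅
      rw [incN_inr] at m₂ m₄
      exact old_new φ x p' s₁ s₂ s₃ s₄ m₁ m₂ m₃ m₄ l13 l23 l34
  · rcases nl_cases b with ⟨x', rfl⟩ | ⟨p', rfl⟩
    · rw [incN_inr] at m₁ m₃ m₅
      rw [incN_inl] at m₂ m₄
      exact new_old φ x' p s₁ s₂ s₄ s₅ m₁ m₂ m₄ m₅ l12 l24 l45
    · rw [incN_inr] at m₁ m₂ m₃ m₄ m₅
      by_cases hp : (p.1 : T.S) = p'.1
      · obtain ⟨σ, y⟩ := p
        obtain ⟨σ', z⟩ := p'
        have hσ : σ = σ' := Subtype.ext hp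
        subst hσ
        have hyz : y ≠ z := by rintro rfl; exact hab rfl
        have conv : ∀ (s s' : NS T R) (y z : R.L),
            Bef s (toLex (Sum.inr (toLex (σ, y))) : NL T R) s'
              (toLex (Sum.inr (toLex (σ, z))) : NL T R) → s < s' ∨ (s = s' ∧ y < z) := by
          intro s s' y z h
          rcases h with h | ⟨h, h'⟩
          · exact Or.inl h
          · rw [nl_inr_lt] at h'
            rcases h' with h' | ⟨_, h'⟩
            · exact absurd h' (lt_irrefl _)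
            · exact Or.inr ⟨h, h'⟩
        exact new_same σ y z hyz s₁ s₂ s₃ s₄ s₅ m₁ m₂ m₃ m₄ m₅ (conv _ _ _ _ b1)
          (conv _ _ _ _ b2) (conv _ _ _ _ b3) (conv _ _ _ _ b4)
      · exact new_new p p' hp s₁ s₂ s₃ m₁ m₂ m₃ l12 l23

/-- The composition. -/
def compose (φ : T.L → R.S)
    (h1 : ∀ x, φ x ∈ R.G)
    (h2 : ∀ x x', T.first x = T.first x' → x < x' → φ x' < φ x)
    (h3 : ∀ σ ∈ T.G, ∀ γ ∈ R.G, ∃ x, T.first x = σ ∧ φ x = γ) : FanStruct (k + 1) (m + 1) where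
  L := NL T R
  S := NS T R
  inc := incN φ
  first := firstN φ
  G := GN
  G_ne := by
    obtain ⟨σ, hσ⟩ := T.G_ne
    obtain ⟨γ, hγ⟩ := R.G_ne
    exact ⟨_, (mem_GN _).mpr ⟨σ, hσ, γ, hγ, rfl⟩⟩
  first_mem a := by
    rcases nl_cases a with ⟨x, rfl⟩ | ⟨p, rfl⟩
    · rw [incN_inl, mem_incL, firstN_inl]
      exact Or.inl rfl
    · rw [incN_inr, mem_incR, firstN_inr]
      exact ⟨_, R.first_mem _, rfl⟩
  first_le := first_le_N φ
  card_inc a := by
    rcases nl_cases a with ⟨x, rfl⟩ | ⟨p, rfl⟩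
    · exact card_incL φ x
    · exact card_incR p
  first_G a := by
    rcases nl_cases a with ⟨x, rfl⟩ | ⟨p, rfl⟩
    · rw [firstN_inl, mem_GN]
      exact ⟨_, T.first_G x, _, h1 x, rfl⟩
    · rw [firstN_inr, mem_GN]
      exact ⟨_, p.1.2, _, R.first_G _, rfl⟩
  fan_only := fan_only_N φ
  fan_card := fan_card_N φ h2 h3
  nest := nest_N φ h2
  free := free_N φ h2

end

lemma usedN_subset {k m f : ℕ} {T : FanStruct k f} {R : FanStruct (k + 1) m} (hm : 0 < m)
    (φ : T.L → R.S) (h1 : ∀ x, φ x ∈ R.G) (s : NS T R) (a : NL T R) (hs : s ∈ incN φ a) :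
    s ∈ ((univ.biUnion T.inc).image fun τ => (toLex (τ, (⊤ : WithTop R.S)) : NS T R)) ∪
      ((T.G ×ˢ (univ.biUnion R.inc)).image
        fun q => (toLex (q.1, ((q.2 : R.S) : WithTop R.S)) : NS T R)) := by
  classical
  rw [Finset.mem_union, Finset.mem_image, Finset.mem_image]
  rcases nl_cases a with ⟨x, rfl⟩ | ⟨p, rfl⟩
  · rw [incN_inl, mem_incL] at hs
    rcases hs with rfl | ⟨τ, hτ, rfl⟩
    · right
      refine ⟨(T.first x, φ x), ?_, rfl⟩
      rw [Finset.mem_product]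
      refine ⟨T.first_G x, ?_⟩
      have hcard := R.fan_card (φ x) (h1 x)
      have : 0 < (univ.filter fun y => R.first y = φ x).card := by rw [hcard]; exact hm
      obtain ⟨y, hy⟩ := Finset.card_pos.mp this
      rw [Finset.mem_filter] at hy
      rw [Finset.mem_biUnion]
      refine ⟨y, Finset.mem_univ _, ?_⟩
      have := R.first_mem y
      rw [hy.2] at this
      exact this
    · left
      exact ⟨τ, Finset.mem_biUnion.mpr ⟨x, Finset.mem_univ _, hτ⟩, rfl⟩
  · rw [incN_inr, mem_incR] at hs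
    obtain ⟨r, hr, rfl⟩ := hs
    right
    refine ⟨((p.1 : T.S), r), ?_, rfl⟩
    rw [Finset.mem_product]
    exact ⟨p.1.2, Finset.mem_biUnion.mpr ⟨p.2, Finset.mem_univ _, hr⟩⟩

/-- The composition of fan structures, with the bounds we need. -/
theorem exists_compose {k m f : ℕ} (T : FanStruct k f) (R : FanStruct (k + 1) m)
    (hf : f = R.G.card) (hm : 0 < m) : ∃ F : FanStruct (k + 1) (m + 1),
      F.G.card = T.G.card * R.G.card ∧ F.used ≤ T.used + T.G.card * R.used := by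
  classical
  obtain ⟨φ, h1, h2, h3⟩ := exists_phi T R hf
  refine ⟨compose φ h1 h2 h3, card_GN, ?_⟩
  have hsub : (univ.biUnion (incN φ) : Finset (NS T R)) ⊆
      ((univ.biUnion T.inc).image fun τ => (toLex (τ, (⊤ : WithTop R.S)) : NS T R)) ∪
      ((T.G ×ˢ (univ.biUnion R.inc)).image
        fun q => (toLex (q.1, ((q.2 : R.S) : WithTop R.S)) : NS T R)) := by
    intro s hs
    rw [Finset.mem_biUnion] at hs
    obtain ⟨a, _, hs⟩ := hs
    exact usedN_subset hm φ h1 s a hs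
  have hle := Finset.card_le_card hsub
  refine le_trans ?_ (hle.trans ?_)
  · unfold FanStruct.used
    apply le_of_eq
    congr 1
  · refine (Finset.card_union_le _ _).trans ?_
    refine Nat.add_le_add Finset.card_image_le ?_
    refine Finset.card_image_le.trans ?_
    rw [Finset.card_product]
    exact le_refl _

end Pool.Agent.Work.MP_79a1cb_co
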