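import Mathlib
import Pool.Agent.Work.MP_79a1cb_co.Comp2

namespace Pool.Agent.Work.MP_79a1cb_co

open Finset

/-- Claim `A'(k)`. -/
def ClaimA (k : ℕ) : Prop :=
  ∀ M : ℕ, ∃ m0 : ℕ, ∀ m ≥ m0, ∃ F : FanStruct k m, M * F.used ≤ m * F.G.card

lemma claimA_one : ClaimA 1 := by
  intro M
  refine ⟨M, fun m hm => ⟨baseOne m, ?_⟩⟩
  have h1 := baseOne_used m
  have h2 : (baseOne m).G.card = 1 := Finset.card_singleton (0 : ℕ)
  rw [h2, mul_one]
  calc M * (baseOne m).used ≤ M * 1 := Nat.mul_le_mul_left _ h1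
    _ ≤ m := by omega

lemma claimB (k : ℕ) (hA : ClaimA k) (m : ℕ) : ∀ E G0 : ℕ,
    ∃ F : FanStruct (k + 1) (m + 1), G0 ≤ F.G.card ∧
      E * F.used ≤ (E * (k + 1) + m) * F.G.card := by
  induction m with
  | zero =>
    intro E G0
    refine ⟨baseTwo (k + 1) (G0 + 1) (Nat.succ_pos _) (Nat.succ_pos _), ?_, ?_⟩
    · rw [baseTwo_G]
      omega
    · rw [baseTwo_G]
      have := baseTwo_used (k + 1) (G0 + 1) (Nat.succ_pos _) (Nat.succ_pos _)
      calc E * _ ≤ E * ((k + 1) * (G0 + 1)) := Nat.mul_le_mul_left _ this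
        _ = (E * (k + 1) + 0) * (G0 + 1) := by ring
  | succ m ih =>
    intro E G0
    obtain ⟨m0, hm0⟩ := hA E
    obtain ⟨R, hR1, hR2⟩ := ih E (max m0 G0)
    obtain ⟨T, hT⟩ := hm0 R.G.card (le_trans (le_max_left _ _) hR1)
    obtain ⟨F, hF1, hF2⟩ := exists_compose T R rfl (Nat.succ_pos m)
    refine ⟨F, ?_, ?_⟩
    · rw [hF1]
      have h1 : 1 ≤ T.G.card := T.G_ne.card_pos
      calc G0 ≤ R.G.card := le_trans (le_max_right _ _) hR1
        _ = 1 * R.G.card := (one_mul _).symm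
        _ ≤ T.G.card * R.G.card := Nat.mul_le_mul_right _ h1
    · rw [hF1]
      calc E * F.used ≤ E * (T.used + T.G.card * R.used) := Nat.mul_le_mul_left _ hF2
        _ = E * T.used + T.G.card * (E * R.used) := by ring
        _ ≤ R.G.card * T.G.card + T.G.card * ((E * (k + 1) + m) * R.G.card) :=
            Nat.add_le_add hT (Nat.mul_le_mul_left _ hR2)
        _ = (E * (k + 1) + (m + 1)) * (T.G.card * R.G.card) := by ring

lemma claimA_succ (k : ℕ) (hA : ClaimA k) : ClaimA (k + 1) := by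
  intro M
  refine ⟨max 1 (M * (k + 2)), fun m hm => ?_⟩
  have hm1 : 1 ≤ m := le_trans (le_max_left _ _) hm
  have hm2 : M * (k + 2) ≤ m := le_trans (le_max_right _ _) hm
  obtain ⟨m', rfl⟩ : ∃ m', m = m' + 1 := ⟨m - 1, by omega⟩
  obtain ⟨F, _, hF⟩ := claimB k hA m' (m' + 1) 1
  refine ⟨F, ?_⟩
  have h1 : (m' + 1) * F.used ≤ (m' + 1) * ((k + 2) * F.G.card) := by
    refine hF.trans ?_
    calc ((m' + 1) * (k + 1) + m') * F.G.card
        ≤ ((m' + 1) * (k + 1) + (m' + 1)) * F.G.card :=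
          Nat.mul_le_mul_right _ (Nat.add_le_add_left (Nat.le_succ _) _)
      _ = (m' + 1) * ((k + 2) * F.G.card) := by ring
  have h2 : F.used ≤ (k + 2) * F.G.card := Nat.le_of_mul_le_mul_left h1 (Nat.succ_pos _)
  calc M * F.used ≤ M * ((k + 2) * F.G.card) := Nat.mul_le_mul_left _ h2
    _ = M * (k + 2) * F.G.card := by ring
    _ ≤ (m' + 1) * F.G.card := Nat.mul_le_mul_right _ hm2

theorem claimA (k : ℕ) : ClaimA (k + 1) := by
  induction k with
  | zero => exact claimA_one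
  | succ k ih => exact claimA_succ (k + 1) ih

/-- The fan structures used in the core lemma. -/
theorem exists_fan (k : ℕ) : ∃ m : ℕ, ∃ F : FanStruct (k + 1) m,
    0 < Fintype.card F.L ∧ F.used ≤ Fintype.card F.L := by
  obtain ⟨m0, h⟩ := claimA k 1
  obtain ⟨F, hF⟩ := h (m0 + 1) (Nat.le_succ _)
  refine ⟨m0 + 1, F, ?_, ?_⟩
  · rw [F.card_L]
    exact Nat.mul_pos (Nat.succ_pos _) F.G_ne.card_pos
  · rw [F.card_L]
    rwa [one_mul] at hF

end Pool.Agent.Work.MP_79a1cb_co
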