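import Mathlib

namespace Pool.Agent.Work.MP_79a1cb_co

open Finset

/-- Erdős–Szekeres. -/
lemma es (s : ℕ) : ∀ (r : ℕ) (S : Finset ℕ) (f : ℕ → ℕ), Set.InjOn f S → r * s < S.card →
    (∃ t ⊆ S, r < t.card ∧ StrictMonoOn f t) ∨ (∃ t ⊆ S, s < t.card ∧ StrictAntiOn f t) := by
  classical
  intro r
  induction r with
  | zero =>
    intro S f hf hS
    rw [zero_mul] at hS
    obtain ⟨x, hx⟩ := Finset.card_pos.mp hS
    left
    refine ⟨{x}, Finset.singleton_subset_iff.mpr hx, by simp, ?_⟩
    simp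
  | succ r ih =>
    intro S f hf hS
    set M := S.filter fun i => ∃ t ⊆ S, r < t.card ∧ StrictMonoOn f t ∧ i ∈ t ∧ ∀ x ∈ t, x ≤ i
      with hM
    by_cases hc : r * s < (S \ M).card
    · rcases ih (S \ M) f (hf.mono (by
        intro x hx
        exact (Finset.mem_sdiff.mp hx).1)) hc with ⟨t, ht, h1, h2⟩ | ⟨t, ht, h1, h2⟩
      · exfalso
        have hne : t.Nonempty := Finset.card_pos.mp (lt_of_le_of_lt (Nat.zero_le _) h1)
        have hmax := t.max'_mem hne
        have h3 := Finset.mem_sdiff.mp (ht hmax)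
        apply h3.2
        rw [hM, Finset.mem_filter]
        exact ⟨h3.1, t, ht.trans Finset.sdiff_subset, h1, h2, hmax,
          fun x hx => Finset.le_max' _ _ hx⟩
      · exact Or.inr ⟨t, ht.trans Finset.sdiff_subset, h1, h2⟩
    · have hMc : s < M.card := by
        have h1 : (S \ M).card + M.card = S.card :=
          Finset.card_sdiff_add_card_eq_card (Finset.filter_subset _ _)
        rw [add_mul, one_mul] at hS
        omega
      by_cases hanti : StrictAntiOn f M
      · exact Or.inr ⟨M, Finset.filter_subset _ _, hMc, hanti⟩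
      · left
        unfold StrictAntiOn at hanti
        push Not at hanti
        obtain ⟨i, hi, j, hj, hij, hle⟩ := hanti
        have hi' := Finset.mem_filter.mp (Finset.mem_coe.mp hi)
        have hj' := Finset.mem_filter.mp (Finset.mem_coe.mp hj)
        have hlt : f i < f j := by
          rcases hle.lt_or_eq with h | h
          · exact h
          · exact absurd (hf hi'.1 hj'.1 h) hij.ne
        obtain ⟨_, t, ht, h1, h2, h3, h4⟩ := hi'
        have hjt : j ∉ t := fun h => absurd (h4 j h) (not_le.mpr hij)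
        refine ⟨insert j t, Finset.insert_subset hj'.1 ht, ?_, ?_⟩
        · rw [Finset.card_insert_of_notMem hjt]
          omega
        · intro x hx y hy hxy
          rw [Finset.mem_coe, Finset.mem_insert] at hx hy
          rcases hx with rfl | hx
          · rcases hy with rfl | hy
            · exact absurd hxy (lt_irrefl _)
            · exact absurd (hij.trans hxy) (not_lt.mpr (h4 y hy))
          · rcases hy with rfl | hy
            · have h5 : f x ≤ f i := by
                rcases (h4 x hx).lt_or_eq with h | h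
                · exact (h2 hx h3 h).le
                · rw [h]
              exact lt_of_le_of_lt h5 hlt
            · exact h2 hx hy hxy

/-- Iterated Erdős–Szekeres. -/
lemma es_multi (N : ℕ) : ∀ g : ℕ, ∃ R : ℕ, ∀ (S : Finset ℕ) (c : ℕ → ℕ → ℕ),
    (∀ j < g, Set.InjOn (c j) S) → R ≤ S.card →
    ∃ t ⊆ S, N ≤ t.card ∧ ∀ j < g, StrictMonoOn (c j) t ∨ StrictAntiOn (c j) t := by
  intro g
  induction g with
  | zero => exact ⟨N, fun S c _ h => ⟨S, subset_rfl, h, fun j hj => absurd hj (Nat.not_lt_zero _)⟩⟩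
  | succ g ih =>
    obtain ⟨R, hR⟩ := ih
    refine ⟨R * R + 1, fun S c hc hS => ?_⟩
    have h1 : ∃ t ⊆ S, R ≤ t.card ∧ (StrictMonoOn (c g) t ∨ StrictAntiOn (c g) t) := by
      rcases es R R S (c g) (hc g (Nat.lt_succ_self g)) (by omega) with
        ⟨t, ht, h1, h2⟩ | ⟨t, ht, h1, h2⟩
      · exact ⟨t, ht, h1.le, Or.inl h2⟩
      · exact ⟨t, ht, h1.le, Or.inr h2⟩
    obtain ⟨t, ht, h2, h3⟩ := h1
    obtain ⟨t', ht', h4, h5⟩ := hR t c (fun j hj => (hc j (hj.trans (Nat.lt_succ_self g))).mono ht)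
      h2
    refine ⟨t', ht'.trans ht, h4, fun j hj => ?_⟩
    rcases Nat.lt_succ_iff_lt_or_eq.mp hj with h | rfl
    · exact h5 j h
    · rcases h3 with h | h
      · exact Or.inl (h.mono ht')
      · exact Or.inr (h.mono ht')

/-- Piercing lemma for intervals. -/
lemma pierce {α : Type} (lo hi : α → ℕ) (M : ℕ) : ∀ (t : ℕ) (A : Finset α),
    (∀ a ∈ A, lo a ≤ hi a) → t * M ≤ A.card →
    (∃ B ⊆ A, B.card = t ∧ ∀ a ∈ B, ∀ b ∈ B, a ≠ b → hi a < lo b ∨ hi b < lo a) ∨
    ∃ z, ∃ B ⊆ A, M ≤ B.card ∧ ∀ a ∈ B, lo a ≤ z ∧ z ≤ hi a := by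
  classical
  intro t
  induction t with
  | zero =>
    intro A hA h
    exact Or.inl ⟨∅, Finset.empty_subset _, rfl, by simp⟩
  | succ t ih =>
    intro A hA h
    rcases A.eq_empty_or_nonempty with rfl | hne
    · right
      refine ⟨0, ∅, Finset.empty_subset _, ?_, by simp⟩
      rw [Finset.card_empty] at h ⊢
      have : (t + 1) * M = 0 := Nat.le_zero.mp h
      rcases Nat.mul_eq_zero.mp this with h | h
      · omega
      · omega
    obtain ⟨a0, ha0, hmin⟩ := Finset.exists_min_image A hi hne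
    by_cases hc : M ≤ (A.filter fun a => lo a ≤ hi a0).card
    · right
      refine ⟨hi a0, A.filter fun a => lo a ≤ hi a0, Finset.filter_subset _ _, hc, ?_⟩
      intro a ha
      rw [Finset.mem_filter] at ha
      exact ⟨ha.2, hmin a ha.1⟩
    · have hcard := Finset.card_filter_add_card_filter_not (s := A) (fun a => lo a ≤ hi a0)
      have h1 : t * M ≤ (A.filter fun a => ¬ lo a ≤ hi a0).card := by
        rw [add_mul, one_mul] at h
        omega
      rcases ih (A.filter fun a => ¬ lo a ≤ hi a0)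
        (fun a ha => hA a (Finset.mem_filter.mp ha).1) h1 with
        ⟨B, hB, h2, h3⟩ | ⟨z, B, hB, h2, h3⟩
      · left
        have ha0B : a0 ∉ B := by
          intro h
          exact (Finset.mem_filter.mp (hB h)).2 (hA a0 ha0)
        have hlt : ∀ b ∈ B, hi a0 < lo b := fun b hb =>
          not_le.mp (Finset.mem_filter.mp (hB hb)).2
        refine ⟨insert a0 B, Finset.insert_subset ha0 (hB.trans (Finset.filter_subset _ _)), ?_, ?_⟩
        · rw [Finset.card_insert_of_notMem ha0B, h2]
        · intro a ha b hb hab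
          rw [Finset.mem_insert] at ha hb
          rcases ha with rfl | ha
          · rcases hb with rfl | hb
            · exact absurd rfl hab
            · exact Or.inl (hlt b hb)
          · rcases hb with rfl | hb
            · exact Or.inr (hlt a ha)
            · exact h3 a ha b hb hab
      · exact Or.inr ⟨z, B, hB.trans (Finset.filter_subset _ _), h2, h3⟩

/-- Iterated piercing. -/
lemma pierce_multi {α : Type} (lo hi : ℕ → α → ℕ) (t M : ℕ) : ∀ (g : ℕ) (A : Finset α),
    (∀ j < g, ∀ a ∈ A, lo j a ≤ hi j a) → t ^ g * M ≤ A.card →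
    (∃ j < g, ∃ B ⊆ A, B.card = t ∧
      ∀ a ∈ B, ∀ b ∈ B, a ≠ b → hi j a < lo j b ∨ hi j b < lo j a) ∨
    ∃ z : ℕ → ℕ, ∃ B ⊆ A, M ≤ B.card ∧ ∀ j < g, ∀ a ∈ B, lo j a ≤ z j ∧ z j ≤ hi j a := by
  classical
  intro g
  induction g with
  | zero =>
    intro A hA h
    rw [pow_zero, one_mul] at h
    exact Or.inr ⟨fun _ => 0, A, subset_rfl, h, fun j hj => absurd hj (Nat.not_lt_zero _)⟩
  | succ g ih =>
    intro A hA h
    rcases pierce (lo g) (hi g) (t ^ g * M) t A (hA g (Nat.lt_succ_self g)) (by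
      rw [pow_succ] at h
      calc t * (t ^ g * M) = t ^ g * t * M := by ring
        _ ≤ _ := h) with ⟨B, hB, h1, h2⟩ | ⟨z, B, hB, h1, h2⟩
    · exact Or.inl ⟨g, Nat.lt_succ_self g, B, hB, h1, h2⟩
    · rcases ih B (fun j hj a ha => hA j (hj.trans (Nat.lt_succ_self g)) a (hB ha)) h1 with
        ⟨j, hj, B', hB', h3, h4⟩ | ⟨z', B', hB', h3, h4⟩
      · exact Or.inl ⟨j, hj.trans (Nat.lt_succ_self g), B', hB'.trans hB, h3, h4⟩
      · refine Or.inr ⟨fun j => if j = g then z else z' j, B', hB'.trans hB, h3, ?_⟩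
        intro j hj a ha
        rcases Nat.lt_succ_iff_lt_or_eq.mp hj with h | rfl
        · simp only [h.ne, if_false]
          exact h4 j h a ha
        · simp only [if_true]
          exact h2 a (hB' ha)

/-- An order-preserving injection of a finite set into a larger one. -/
lemma exists_emb {α : Type} [LinearOrder α] (U : Finset α) (J : Finset ℕ)
    (h : U.card ≤ J.card) :
    ∃ η : α → ℕ, (∀ x ∈ U, η x ∈ J) ∧ StrictMonoOn η U := by
  classical
  obtain ⟨J', hJ', hc⟩ := Finset.exists_subset_card_eq h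
  set e := U.orderIsoOfFin rfl
  set e' := J'.orderIsoOfFin hc
  refine ⟨fun x => if hx : x ∈ U then (e' (e.symm ⟨x, hx⟩) : ℕ) else 0, ?_, ?_⟩
  · intro x hx
    simp only [hx, dif_pos]
    exact hJ' (e' _).2
  · intro x hx y hy hxy
    rw [Finset.mem_coe] at hx hy
    simp only [hx, hy, dif_pos]
    have h1 : e.symm ⟨x, hx⟩ < e.symm ⟨y, hy⟩ := e.symm.strictMono hxy
    exact e'.strictMono h1

/-- An order-reversing injection of a finite set into a larger one. -/
lemma exists_emb_anti {α : Type} [LinearOrder α] (U : Finset α) (J : Finset ℕ)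
    (h : U.card ≤ J.card) :
    ∃ η : α → ℕ, (∀ x ∈ U, η x ∈ J) ∧ StrictAntiOn η U := by
  classical
  obtain ⟨J', hJ', hc⟩ := Finset.exists_subset_card_eq h
  set e := U.orderIsoOfFin rfl
  set e' := J'.orderIsoOfFin hc
  refine ⟨fun x => if hx : x ∈ U then (e' (Fin.rev (e.symm ⟨x, hx⟩)) : ℕ) else 0, ?_, ?_⟩
  · intro x hx
    simp only [hx, dif_pos]
    exact hJ' (e' _).2
  · intro x hx y hy hxy
    rw [Finset.mem_coe] at hx hy
    simp only [hx, hy, dif_pos]
    have h1 : e.symm ⟨x, hx⟩ < e.symm ⟨y, hy⟩ := e.symm.strictMono hxy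
    exact e'.strictMono (Fin.rev_lt_rev.mpr h1)

end Pool.Agent.Work.MP_79a1cb_co
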