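import Mathlib
import Pool.Agent.Work.MP_79a1cb_co.Claims
import Pool.Agent.Work.MP_79a1cb_co.Ramsey

namespace Pool.Agent.Work.MP_79a1cb_co

open Finset

/-- The positions `X` of the word `u` span no `ababa`. -/
def Free5 {α : Type} (u : ℕ → α) (X : Finset ℕ) : Prop :=
  ∀ i₁ ∈ X, ∀ i₂ ∈ X, ∀ i₃ ∈ X, ∀ i₄ ∈ X, ∀ i₅ ∈ X, i₁ < i₂ → i₂ < i₃ → i₃ < i₄ → i₄ < i₅ →
    u i₁ = u i₃ → u i₃ = u i₅ → u i₂ = u i₄ → u i₁ = u i₂

lemma embed_aux {k m : ℕ} (F : FanStruct k m) {α : Type} [DecidableEq α] (u : ℕ → α)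
    (P : F.S → F.L → ℕ) (w : F.L → α)
    (hw : Function.Injective w)
    (hu : ∀ a, ∀ s ∈ F.inc a, u (P s a) = w a)
    (hP : ∀ a b, ∀ s ∈ F.inc a, ∀ s' ∈ F.inc b, Bef s a s' b → P s a < P s' b) :
    ∃ X : Finset ℕ, (∀ x ∈ X, ∃ a, ∃ s ∈ F.inc a, x = P s a) ∧
      (X.image u).card ≤ Fintype.card F.L ∧ X.card = Fintype.card F.L * k ∧ Free5 u X := by
  classical
  have hconv : ∀ a b, ∀ s ∈ F.inc a, ∀ s' ∈ F.inc b, P s a < P s' b → Bef s a s' b := by
    intro a b s hs s' hs' h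
    rcases lt_trichotomy s s' with h1 | h1 | h1
    · exact Or.inl h1
    · rcases lt_trichotomy a b with h2 | h2 | h2
      · exact Or.inr ⟨h1, h2⟩
      · subst h1 h2
        exact absurd h (lt_irrefl _)
      · have := hP b a s' hs' s hs (Or.inr ⟨h1.symm, h2⟩)
        exact absurd h (lt_asymm this)
    · have := hP b a s' hs' s hs (Or.inl h1)
      exact absurd h (lt_asymm this)
  refine ⟨((univ : Finset F.L).sigma F.inc).image fun q => P q.2 q.1, ?_, ?_, ?_, ?_⟩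
  · intro x hx
    rw [Finset.mem_image] at hx
    obtain ⟨⟨a, s⟩, hq, rfl⟩ := hx
    rw [Finset.mem_sigma] at hq
    exact ⟨a, s, hq.2, rfl⟩
  · have hsub : (((univ : Finset F.L).sigma F.inc).image fun q => P q.2 q.1).image u ⊆
        (univ : Finset F.L).image w := by
      intro y hy
      rw [Finset.mem_image] at hy
      obtain ⟨x, hx, rfl⟩ := hy
      rw [Finset.mem_image] at hx
      obtain ⟨⟨a, s⟩, hq, rfl⟩ := hx
      rw [Finset.mem_sigma] at hq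
      rw [Finset.mem_image]
      exact ⟨a, Finset.mem_univ _, (hu a s hq.2).symm⟩
    exact (Finset.card_le_card hsub).trans Finset.card_image_le
  · rw [Finset.card_image_of_injOn, Finset.card_sigma,
      Finset.sum_congr rfl (fun a _ => F.card_inc a), Finset.sum_const, Finset.card_univ,
      smul_eq_mul]
    rintro ⟨a, s⟩ hq ⟨a', s'⟩ hq' h
    rw [Finset.mem_coe, Finset.mem_sigma] at hq hq'
    simp only at h hq hq'
    have h1 : w a = w a' := by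
      rw [← hu a s hq.2, ← hu a' s' hq'.2, h]
    have h2 := hw h1
    subst h2
    have h3 : s = s' := by
      rcases lt_trichotomy s s' with h1 | h1 | h1
      · exact absurd h (hP a a s hq.2 s' hq'.2 (Or.inl h1)).ne
      · exact h1
      · exact absurd h (hP a a s' hq'.2 s hq.2 (Or.inl h1)).ne'
    rw [h3]
  · intro i₁ h₁ i₂ h₂ i₃ h₃ i₄ h₄ i₅ h₅ l12 l23 l34 l45 e13 e35 e24
    rw [Finset.mem_image] at h₁ h₂ h₃ h₄ h₅
    obtain ⟨⟨a₁, s₁⟩, h₁, rfl⟩ := h₁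
    obtain ⟨⟨a₂, s₂⟩, h₂, rfl⟩ := h₂
    obtain ⟨⟨a₃, s₃⟩, h₃, rfl⟩ := h₃
    obtain ⟨⟨a₄, s₄⟩, h₄, rfl⟩ := h₄
    obtain ⟨⟨a₅, s₅⟩, h₅, rfl⟩ := h₅
    rw [Finset.mem_sigma] at h₁ h₂ h₃ h₄ h₅
    replace h₁ := h₁.2
    replace h₂ := h₂.2
    replace h₃ := h₃.2
    replace h₄ := h₄.2
    replace h₅ := h₅.2
    simp only at h₁ h₂ h₃ h₄ h₅ l12 l23 l34 l45 e13 e35 e24 ⊢
    rw [hu _ _ h₁, hu _ _ h₃] at e13
    rw [hu _ _ h₃, hu _ _ h₅] at e35
    rw [hu _ _ h₂, hu _ _ h₄] at e24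
    have f13 := hw e13
    have f35 := hw e35
    have f24 := hw e24
    subst f13 f35 f24
    rw [hu _ _ h₁, hu _ _ h₂]
    by_contra hne
    have hab : a₁ ≠ a₂ := fun h => hne (by rw [h])
    exact F.free a₁ a₂ hab s₁ h₁ s₂ h₂ s₃ h₃ s₄ h₄ s₅ h₅ (hconv _ _ _ h₁ _ h₂ l12)
      (hconv _ _ _ h₂ _ h₃ l23) (hconv _ _ _ h₃ _ h₄ l34) (hconv _ _ _ h₄ _ h₅ l45)

/-- Embedding a fan structure into separated, monotone columns. -/
lemma embed {k m : ℕ} (F : FanStruct k m) {α : Type} [DecidableEq α] (u : ℕ → α) (g : ℕ)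
    (c : ℕ → ℕ → ℕ) (t J : Finset ℕ) (w : ℕ → α) (hw : Set.InjOn w t)
    (hu : ∀ j < g, ∀ i ∈ t, u (c j i) = w i)
    (hcol : ∀ i j, i < j → j < g → ∀ x ∈ t, ∀ y ∈ t, c i x < c j y)
    (hJ : ∀ j ∈ J, j < g)
    (hmono : (∀ j ∈ J, StrictMonoOn (c j) t) ∨ (∀ j ∈ J, StrictAntiOn (c j) t))
    (hJc : F.used ≤ J.card) (ht : Fintype.card F.L ≤ t.card) :
    ∃ X : Finset ℕ, (∀ x ∈ X, ∃ j < g, ∃ i ∈ t, x = c j i) ∧
      (X.image u).card ≤ Fintype.card F.L ∧ X.card = Fintype.card F.L * k ∧ Free5 u X := by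
  classical
  obtain ⟨η, hη1, hη2⟩ := exists_emb (univ.biUnion F.inc) J hJc
  have hηm : ∀ a, ∀ s ∈ F.inc a, η s ∈ J := fun a s hs =>
    hη1 s (Finset.mem_biUnion.mpr ⟨a, Finset.mem_univ _, hs⟩)
  have hηlt : ∀ a b, ∀ s ∈ F.inc a, ∀ s' ∈ F.inc b, s < s' → η s < η s' :=
    fun a b s hs s' hs' h => hη2 (Finset.mem_coe.mpr (Finset.mem_biUnion.mpr ⟨a, Finset.mem_univ _, hs⟩))
      (Finset.mem_coe.mpr (Finset.mem_biUnion.mpr ⟨b, Finset.mem_univ _, hs'⟩)) h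
  have hl : ∃ l : F.L → ℕ, (∀ a, l a ∈ t) ∧ Function.Injective l ∧
      ∀ j ∈ J, ∀ a b, a < b → c j (l a) < c j (l b) := by
    rcases hmono with hm | hm
    · obtain ⟨l, hl1, hl2⟩ := exists_emb (univ : Finset F.L) t (by rwa [Finset.card_univ])
      refine ⟨l, fun a => hl1 a (Finset.mem_univ _), ?_, ?_⟩
      · intro a b h
        rcases lt_trichotomy a b with h1 | h1 | h1
        · exact absurd h (hl2 (by simp) (by simp) h1).ne
        · exact h1
        · exact absurd h (hl2 (by simp) (by simp) h1).ne'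
      · intro j hj a b hab
        exact hm j hj (hl1 a (Finset.mem_univ _)) (hl1 b (Finset.mem_univ _))
          (hl2 (by simp) (by simp) hab)
    · obtain ⟨l, hl1, hl2⟩ := exists_emb_anti (univ : Finset F.L) t (by rwa [Finset.card_univ])
      refine ⟨l, fun a => hl1 a (Finset.mem_univ _), ?_, ?_⟩
      · intro a b h
        rcases lt_trichotomy a b with h1 | h1 | h1
        · exact absurd h (hl2 (by simp) (by simp) h1).ne'
        · exact h1
        · exact absurd h (hl2 (by simp) (by simp) h1).ne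
      · intro j hj a b hab
        exact hm j hj (hl1 b (Finset.mem_univ _)) (hl1 a (Finset.mem_univ _))
          (hl2 (by simp) (by simp) hab)
  obtain ⟨l, hl1, hl2, hl3⟩ := hl
  obtain ⟨X, h1, h2, h3, h4⟩ := embed_aux F u (fun s a => c (η s) (l a)) (fun a => w (l a))
    (by
      intro a b h
      exact hl2 (hw (hl1 a) (hl1 b) h))
    (by
      intro a s hs
      exact hu (η s) (hJ _ (hηm a s hs)) (l a) (hl1 a))
    (by
      intro a b s hs s' hs' h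
      rcases h with h | ⟨rfl, h⟩
      · exact hcol _ _ (hηlt a b s hs s' hs' h) (hJ _ (hηm b s' hs')) _ (hl1 a) _ (hl1 b)
      · exact hl3 _ (hηm a s hs) a b h)
  refine ⟨X, ?_, h2, h3, h4⟩
  intro x hx
  obtain ⟨a, s, hs, rfl⟩ := h1 x hx
  exact ⟨η s, hJ _ (hηm a s hs), l a, hl1 a, rfl⟩

/-- The disjoint case. -/
lemma disjoint_case {α : Type} [DecidableEq α] (u : ℕ → α) (p : α → ℕ → ℕ) (s r j : ℕ)
    (B : Finset α) (hs : j * r + r ≤ s) (hr : 0 < r)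
    (hu : ∀ a ∈ B, ∀ i < s, u (p a i) = a)
    (hp : ∀ a ∈ B, ∀ i i', i < i' → i' < s → p a i < p a i')
    (hB : ∀ a ∈ B, ∀ b ∈ B, a ≠ b → p a (j * r + (r - 1)) < p b (j * r) ∨
      p b (j * r + (r - 1)) < p a (j * r)) :
    ∃ X : Finset ℕ, (∀ x ∈ X, ∃ a ∈ B, ∃ i < s, x = p a i) ∧
      (X.image u).card ≤ B.card ∧ X.card = B.card * r ∧ Free5 u X := by
  classical
  have hple : ∀ a ∈ B, ∀ i i', i ≤ i' → i' < s → p a i ≤ p a i' := by
    intro a ha i i' h h'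
    rcases h.lt_or_eq with h | h
    · exact (hp a ha i i' h h').le
    · rw [h]
  refine ⟨(B ×ˢ Finset.range r).image fun q => p q.1 (j * r + q.2), ?_, ?_, ?_, ?_⟩
  · intro x hx
    rw [Finset.mem_image] at hx
    obtain ⟨⟨a, i⟩, hq, rfl⟩ := hx
    rw [Finset.mem_product, Finset.mem_range] at hq
    simp only at hq
    exact ⟨a, hq.1, j * r + i, by omega, rfl⟩
  · refine Finset.card_le_card ?_
    intro y hy
    rw [Finset.mem_image] at hy
    obtain ⟨x, hx, rfl⟩ := hy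
    rw [Finset.mem_image] at hx
    obtain ⟨⟨a, i⟩, hq, rfl⟩ := hx
    rw [Finset.mem_product, Finset.mem_range] at hq
    simp only at hq ⊢
    rw [hu a hq.1 _ (by omega)]
    exact hq.1
  · rw [Finset.card_image_of_injOn, Finset.card_product, Finset.card_range]
    rintro ⟨a, i⟩ hq ⟨a', i'⟩ hq' h
    rw [Finset.mem_coe, Finset.mem_product, Finset.mem_range] at hq hq'
    simp only at hq hq' h
    have h1 : a = a' := by
      rw [← hu a hq.1 (j * r + i) (by omega), ← hu a' hq'.1 (j * r + i') (by omega), h]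
    subst h1
    have h2 : i = i' := by
      rcases lt_trichotomy i i' with h1 | h1 | h1
      · exact absurd h (hp a hq.1 _ _ (by omega) (by omega)).ne
      · exact h1
      · exact absurd h (hp a hq.1 _ _ (by omega) (by omega)).ne'
    rw [h2]
  · intro i₁ h₁ i₂ h₂ i₃ h₃ i₄ h₄ i₅ h₅ l12 l23 l34 l45 e13 e35 e24
    rw [Finset.mem_image] at h₁ h₂ h₃
    obtain ⟨⟨a₁, j₁⟩, h₁, rfl⟩ := h₁
    obtain ⟨⟨a₂, j₂⟩, h₂, rfl⟩ := h₂
    obtain ⟨⟨a₃, j₃⟩, h₃, rfl⟩ := h₃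
    rw [Finset.mem_product, Finset.mem_range] at h₁ h₂ h₃
    simp only at h₁ h₂ h₃ l12 l23 e13 ⊢
    have e1 := hu a₁ h₁.1 (j * r + j₁) (by omega)
    have e2 := hu a₂ h₂.1 (j * r + j₂) (by omega)
    have e3 := hu a₃ h₃.1 (j * r + j₃) (by omega)
    rw [e1, e3] at e13
    subst e13
    rw [e1, e2]
    by_contra hne
    rcases hB a₁ h₁.1 a₂ h₂.1 hne with h | h
    · have g1 : p a₁ (j * r + j₃) ≤ p a₁ (j * r + (r - 1)) := hple _ h₁.1 _ _ (by omega) (by omega)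
      have g2 : p a₂ (j * r) ≤ p a₂ (j * r + j₂) := hple _ h₂.1 _ _ (by omega) (by omega)
      omega
    · have g1 : p a₂ (j * r + j₂) ≤ p a₂ (j * r + (r - 1)) := hple _ h₂.1 _ _ (by omega) (by omega)
      have g2 : p a₁ (j * r) ≤ p a₁ (j * r + j₁) := hple _ h₁.1 _ _ (by omega) (by omega)
      omega

end Pool.Agent.Work.MP_79a1cb_co
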