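import Mathlib
import Pool.Agent.Work.MP_79a1cb_co.Core

namespace Pool.Agent.Work.MP_79a1cb_co

open Finset

/-- The core lemma: many letters, each of which occurs `s` times, give an `ababa`-free set of
positions in which the letters occur `4 D` times in the average. -/
theorem core (D : ℕ) (hD : 0 < D) : ∃ s R : ℕ, 4 ≤ s ∧
    ∀ (α : Type) [DecidableEq α] (u : ℕ → α) (A : Finset α) (p : α → ℕ → ℕ), R ≤ A.card →
      (∀ a ∈ A, ∀ j < s, u (p a j) = a) →
      (∀ a ∈ A, ∀ i j, i < j → j < s → p a i < p a j) →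
      ∃ X : Finset ℕ, (∀ x ∈ X, ∃ a ∈ A, ∃ j < s, x = p a j) ∧
        4 * (X.image u).card ≤ s ∧ D * s ≤ X.card ∧ Free5 u X := by
  classical
  have hD2 : 0 < D ^ 2 := by positivity
  obtain ⟨k, hk⟩ : ∃ k, k + 1 = 12 * D ^ 2 := ⟨12 * D ^ 2 - 1, by omega⟩
  obtain ⟨m, F, hF0, hF⟩ := exists_fan k
  set N := Fintype.card F.L with hN
  obtain ⟨R, hR⟩ := es_multi N (2 * N)
  set g := 2 * N with hg
  refine ⟨4 * D * (g + 1), (D * (g + 1)) ^ (g + 1) * R, by nlinarith, ?_⟩
  intro α _ u A p hA hu hp
  set r := 4 * D with hr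
  set s := r * (g + 1) with hs
  have hr0 : 0 < r := by omega
  have hidx : ∀ j, j < g + 1 → j * r + r ≤ s := by
    intro j hj
    rw [hs]
    have : (j + 1) * r ≤ (g + 1) * r := Nat.mul_le_mul_right _ hj
    rw [add_mul, one_mul] at this
    rw [mul_comm r (g + 1)]
    exact this
  have hple : ∀ a ∈ A, ∀ i i', i ≤ i' → i' < s → p a i ≤ p a i' := by
    intro a ha i i' h h'
    rcases h.lt_or_eq with h | h
    · exact (hp a ha i i' h h').le
    · rw [h]
  rcases pierce_multi (fun j a => p a (j * r)) (fun j a => p a (j * r + (r - 1)))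
    (D * (g + 1)) R (g + 1) A (by
      intro j hj a ha
      have := hidx j hj
      exact hple a ha _ _ (by omega) (by omega)) hA with
    ⟨j, hj, B, hB, hBc, hdis⟩ | ⟨z, B, hB, hBc, hz⟩
  · -- disjoint case
    obtain ⟨X, h1, h2, h3, h4⟩ := disjoint_case u p s r j B (hidx j hj) hr0
      (fun a ha => hu a (hB ha)) (fun a ha => hp a (hB ha)) hdis
    refine ⟨X, ?_, ?_, ?_, h4⟩
    · intro x hx
      obtain ⟨a, ha, i, hi, rfl⟩ := h1 x hx
      exact ⟨a, hB ha, i, hi, rfl⟩
    · rw [hBc] at h2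
      calc 4 * (X.image u).card ≤ 4 * (D * (g + 1)) := Nat.mul_le_mul_left _ h2
        _ = s := by rw [hs, hr]; ring
    · rw [h3, hBc, hs, hr]
      apply le_of_eq
      ring
  · -- pierced case
    have hjr : ∀ j, j < g → (j + 1) * r < s := by
      intro j hj
      have := hidx (j + 1) (by omega)
      omega
    have hs0 : 0 < s := by rw [hs]; positivity
    have huS : ∀ a ∈ B, u (p a 0) = a := fun a ha => hu a (hB ha) 0 hs0
    set S := B.image fun a => p a 0 with hSdef
    have hS : ∀ i ∈ S, u i ∈ B ∧ p (u i) 0 = i := by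
      intro i hi
      rw [hSdef, Finset.mem_image] at hi
      obtain ⟨a, ha, rfl⟩ := hi
      rw [huS a ha]
      exact ⟨ha, rfl⟩
    have hScard : S.card = B.card := by
      rw [hSdef, Finset.card_image_of_injOn]
      intro a ha b hb h
      rw [← huS a ha, ← huS b hb]
      simp only at h
      rw [h]
    have huinj : Set.InjOn u S := by
      intro i hi i' hi' h
      rw [← (hS i hi).2, ← (hS i' hi').2, h]
    set c : ℕ → ℕ → ℕ := fun j i => p (u i) ((j + 1) * r) with hc
    have huc : ∀ j < g, ∀ i ∈ S, u (c j i) = u i := by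
      intro j hj i hi
      exact hu (u i) (hB (hS i hi).1) _ (hjr j hj)
    have hcinj : ∀ j < g, Set.InjOn (c j) S := by
      intro j hj i hi i' hi' h
      apply huinj hi hi'
      rw [← huc j hj i hi, ← huc j hj i' hi', h]
    obtain ⟨t, ht, htc, hmon⟩ := hR S c hcinj (by rw [hScard]; exact hBc)
    have hcol : ∀ i j, i < j → j < g → ∀ x ∈ t, ∀ y ∈ t, c i x < c j y := by
      intro i j hij hj x hx y hy
      have h1 := (hz (i + 1) (by omega) (u x) (hS x (ht hx)).1).1
      have h2 := (hz (i + 1) (by omega) (u y) (hS y (ht hy)).1).2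
      have hlt : (i + 1) * r + (r - 1) < (j + 1) * r := by
        have : (i + 1 + 1) * r ≤ (j + 1) * r := Nat.mul_le_mul_right _ (by omega)
        rw [add_mul (i + 1) 1, one_mul] at this
        omega
      have h3 := hp (u y) (hB (hS y (ht hy)).1) _ _ hlt (hjr j hj)
      exact lt_of_le_of_lt (h1.trans h2) h3
    set J1 := (Finset.range g).filter fun j => StrictMonoOn (c j) t with hJ1
    set J2 := (Finset.range g).filter fun j => ¬ StrictMonoOn (c j) t with hJ2
    have hJ : J1.card + J2.card = g := by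
      have := Finset.card_filter_add_card_filter_not (s := Finset.range g)
        (fun j => StrictMonoOn (c j) t)
      rw [Finset.card_range] at this
      exact this
    have hex : ∃ J : Finset ℕ, (∀ j ∈ J, j < g) ∧
        ((∀ j ∈ J, StrictMonoOn (c j) t) ∨ (∀ j ∈ J, StrictAntiOn (c j) t)) ∧ N ≤ J.card := by
      by_cases h : N ≤ J1.card
      · refine ⟨J1, fun j hj => Finset.mem_range.mp (Finset.mem_filter.mp hj).1, Or.inl ?_, h⟩
        intro j hj
        exact (Finset.mem_filter.mp hj).2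
      · refine ⟨J2, fun j hj => Finset.mem_range.mp (Finset.mem_filter.mp hj).1, Or.inr ?_,
          by omega⟩
        intro j hj
        have h1 := Finset.mem_filter.mp hj
        rcases hmon j (Finset.mem_range.mp h1.1) with h2 | h2
        · exact absurd h2 h1.2
        · exact h2
    obtain ⟨J, hJg, hJm, hJc⟩ := hex
    obtain ⟨X, h1, h2, h3, h4⟩ := embed F u g c t J u (huinj.mono ht)
      (fun j hj i hi => huc j hj i (ht hi)) hcol hJg hJm (hF.trans hJc) htc
    refine ⟨X, ?_, ?_, ?_, h4⟩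
    · intro x hx
      obtain ⟨j, hj, i, hi, rfl⟩ := h1 x hx
      exact ⟨u i, hB (hS i (ht hi)).1, (j + 1) * r, hjr j hj, rfl⟩
    · rw [hs, hr, hg]
      calc 4 * (X.image u).card ≤ 4 * N := Nat.mul_le_mul_left _ h2
        _ ≤ 4 * D * (2 * N + 1) := by nlinarith
    · rw [h3, ← hN, hk, hs, hr, hg]
      have hN0 : 1 ≤ N := hF0
      calc D * (4 * D * (2 * N + 1)) = D ^ 2 * (8 * N + 4) := by ring
        _ ≤ D ^ 2 * (12 * N) := Nat.mul_le_mul_left _ (by omega)
        _ = N * (12 * D ^ 2) := by ring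

end Pool.Agent.Work.MP_79a1cb_co
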