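import Mathlib
import Pool.Agent.Work.MP_79a1cb_co.CoreLemma

namespace Pool.Agent.Work.MP_79a1cb_co

open Finset

lemma exists_enum (G : Finset ℕ) (s : ℕ) (h : s ≤ G.card) :
    ∃ f : ℕ → ℕ, (∀ j < s, f j ∈ G) ∧ ∀ i j, i < j → j < s → f i < f j := by
  classical
  refine ⟨fun j => if hj : j < G.card then G.orderEmbOfFin rfl ⟨j, hj⟩ else 0, ?_, ?_⟩
  · intro j hj
    have hj' : j < G.card := lt_of_lt_of_le hj h
    simp only [hj', dif_pos]
    exact G.orderEmbOfFin_mem rfl _
  · intro i j hij hj
    have hj' : j < G.card := lt_of_lt_of_le hj h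
    have hi' : i < G.card := hij.trans hj'
    simp only [hj', hi', dif_pos]
    exact (G.orderEmbOfFin rfl).strictMono hij

/-- A single window. -/
lemma window (D : ℕ) {s R : ℕ} (hD : 0 < D) (hs : 4 ≤ s) {α : Type} [DecidableEq α]
    (hcore : ∀ (u : ℕ → α) (A : Finset α) (p : α → ℕ → ℕ), R ≤ A.card →
      (∀ a ∈ A, ∀ j < s, u (p a j) = a) →
      (∀ a ∈ A, ∀ i j, i < j → j < s → p a i < p a j) →
      ∃ X : Finset ℕ, (∀ x ∈ X, ∃ a ∈ A, ∃ j < s, x = p a j) ∧
        4 * (X.image u).card ≤ s ∧ D * s ≤ X.card ∧ Free5 u X)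
    (u : ℕ → α) (Q : ℕ) (hQ : D * R ≤ Q) (G : Finset ℕ) (hG : 2 * s * Q ≤ G.card)
    (hl : (G.image u).card ≤ Q) :
    ∃ Y ⊆ G, 4 * (Y.image u).card ≤ s ∧ D * s ≤ Y.card ∧ Free5 u Y := by
  classical
  set mult : α → ℕ := fun a => (G.filter fun i => u i = a).card with hmult
  set A := (G.image u).filter fun a => s ≤ mult a with hA
  have hsum : ∑ a ∈ G.image u, mult a = G.card := by
    have := Finset.card_eq_sum_card_fiberwise (s := G) (f := u) (t := G.image u)
      (fun i hi => Finset.mem_coe.mpr (Finset.mem_image_of_mem u hi))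
    exact this.symm
  have hsplit : ∑ a ∈ A, mult a + ∑ a ∈ (G.image u).filter (fun a => ¬ s ≤ mult a), mult a
      = G.card := by
    rw [← hsum, hA]
    exact Finset.sum_filter_add_sum_filter_not _ _ _
  have hsmall : ∑ a ∈ (G.image u).filter (fun a => ¬ s ≤ mult a), mult a ≤ Q * s := by
    calc ∑ a ∈ (G.image u).filter (fun a => ¬ s ≤ mult a), mult a
        ≤ ∑ a ∈ (G.image u).filter (fun a => ¬ s ≤ mult a), s := by
          apply Finset.sum_le_sum
          intro a ha
          have := (Finset.mem_filter.mp ha).2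
          omega
      _ = ((G.image u).filter (fun a => ¬ s ≤ mult a)).card * s := by
          rw [Finset.sum_const, smul_eq_mul]
      _ ≤ Q * s := Nat.mul_le_mul_right _ ((Finset.card_filter_le _ _).trans hl)
  have hbig : Q * s ≤ ∑ a ∈ A, mult a := by
    have h2 : 2 * s * Q = Q * s + Q * s := by ring
    omega
  by_cases hR : R ≤ A.card
  · have henum : ∀ a, ∃ f : ℕ → ℕ, a ∈ A → (∀ j < s, f j ∈ G.filter fun i => u i = a) ∧
        ∀ i j, i < j → j < s → f i < f j := by
      intro a
      by_cases ha : a ∈ A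
      · obtain ⟨f, h1, h2⟩ := exists_enum (G.filter fun i => u i = a) s
          (Finset.mem_filter.mp ha).2
        exact ⟨f, fun _ => ⟨h1, h2⟩⟩
      · exact ⟨fun _ => 0, fun h => absurd h ha⟩
    choose p hp using henum
    obtain ⟨X, h1, h2, h3, h4⟩ := hcore u A p hR
      (fun a ha j hj => (Finset.mem_filter.mp ((hp a ha).1 j hj)).2)
      (fun a ha => (hp a ha).2)
    refine ⟨X, ?_, h2, h3, h4⟩
    intro x hx
    obtain ⟨a, ha, j, hj, rfl⟩ := h1 x hx
    exact (Finset.mem_filter.mp ((hp a ha).1 j hj)).1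
  · push Not at hR
    have hex : ∃ a ∈ A, D * s ≤ mult a := by
      by_contra hcon
      push Not at hcon
      have h5 : ∑ a ∈ A, mult a ≤ A.card * (D * s) := by
        calc ∑ a ∈ A, mult a ≤ ∑ a ∈ A, D * s :=
              Finset.sum_le_sum fun a ha => (hcon a ha).le
          _ = A.card * (D * s) := by rw [Finset.sum_const, smul_eq_mul]
      have h6 : A.card * (D * s) < R * (D * s) :=
        Nat.mul_lt_mul_of_pos_right hR (Nat.mul_pos hD (by omega))
      have h7 : R * (D * s) ≤ Q * s := by
        calc R * (D * s) = D * R * s := by ring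
          _ ≤ Q * s := Nat.mul_le_mul_right _ hQ
      omega
    obtain ⟨a, _, ha⟩ := hex
    refine ⟨G.filter fun i => u i = a, Finset.filter_subset _ _, ?_, ha, ?_⟩
    · have : ((G.filter fun i => u i = a).image u).card ≤ 1 := by
        have hsub : (G.filter fun i => u i = a).image u ⊆ {a} := by
          intro y hy
          rw [Finset.mem_image] at hy
          obtain ⟨i, hi, rfl⟩ := hy
          rw [Finset.mem_singleton]
          exact (Finset.mem_filter.mp hi).2
        exact (Finset.card_le_card hsub).trans (by simp)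
      omega
    · intro i₁ h₁ i₂ h₂ _ _ _ _ _ _ _ _ _ _ _ _ _
      rw [(Finset.mem_filter.mp h₁).2, (Finset.mem_filter.mp h₂).2]

/-- The greedy procedure. -/
lemma greedy (D s ℓ : ℕ) {α : Type} [DecidableEq α] (u : ℕ → α) (W : ℕ)
    (hwin : ∀ G ⊆ Finset.range (W * ℓ), ℓ ≤ 4 * G.card →
      ∃ Y ⊆ G, 4 * (Y.image u).card ≤ s ∧ D * s ≤ Y.card ∧ Free5 u Y) :
    ∀ n ≤ W, ∃ X ⊆ Finset.range (n * ℓ), ∃ σ : ℕ, Free5 u X ∧ σ * (D * s) ≤ X.card ∧
      4 * (X.image u).card ≤ σ * s ∧
      3 * ℓ * n ≤ 4 * ((Finset.range (n * ℓ)).filter fun i => u i ∈ X.image u).card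
        + 3 * ℓ * σ := by
  classical
  intro n
  induction n with
  | zero =>
    intro _
    refine ⟨∅, Finset.empty_subset _, 0, ?_, by simp, by simp, by simp⟩
    intro i₁ h₁
    exact absurd h₁ (Finset.notMem_empty _)
  | succ n ih =>
    intro hn
    obtain ⟨X, hX, σ, h1, h2, h3, h4⟩ := ih (by omega)
    have hrange : Finset.range (n * ℓ) ⊆ Finset.range ((n + 1) * ℓ) := by
      intro i hi
      rw [Finset.mem_range] at hi ⊢
      rw [add_mul, one_mul]
      omega
    set V := Finset.Ico (n * ℓ) ((n + 1) * ℓ) with hV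
    have hVc : V.card = ℓ := by
      rw [hV, Nat.card_Ico, add_mul, one_mul]
      omega
    set G := V.filter fun i => u i ∉ X.image u with hG
    by_cases hc : ℓ ≤ 4 * G.card
    · obtain ⟨Y, hY, k1, k2, k3⟩ := hwin G (by
        intro i hi
        have := (Finset.mem_filter.mp hi).1
        rw [hV, Finset.mem_Ico] at this
        rw [Finset.mem_range]
        exact lt_of_lt_of_le this.2 (Nat.mul_le_mul_right _ hn)) hc
      have hYl : ∀ i ∈ Y, n * ℓ ≤ i ∧ i < (n + 1) * ℓ ∧ u i ∉ X.image u := by
        intro i hi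
        have h5 := Finset.mem_filter.mp (hY hi)
        rw [hV, Finset.mem_Ico] at h5
        exact ⟨h5.1.1, h5.1.2, h5.2⟩
      have hXl : ∀ i ∈ X, i < n * ℓ := fun i hi => Finset.mem_range.mp (hX hi)
      have hdisj : Disjoint X Y := by
        rw [Finset.disjoint_left]
        intro i hi hi'
        exact absurd (hXl i hi) (not_lt.mpr (hYl i hi').1)
      refine ⟨X ∪ Y, ?_, σ + 1, ?_, ?_, ?_, ?_⟩
      · apply Finset.union_subset (hX.trans hrange)
        intro i hi
        exact Finset.mem_range.mpr (hYl i hi).2.1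
      · intro i₁ g₁ i₂ g₂ i₃ g₃ i₄ g₄ i₅ g₅ l12 l23 l34 l45 e13 e35 e24
        rw [Finset.mem_union] at g₁ g₂ g₃ g₄ g₅
        rcases g₁ with g₁ | g₁
        · -- all in X
          have m3 : i₃ ∈ X := by
            rcases g₃ with g₃ | g₃
            · exact g₃
            · exact absurd (e13 ▸ Finset.mem_image_of_mem u g₁) (hYl i₃ g₃).2.2
          have m5 : i₅ ∈ X := by
            rcases g₅ with g₅ | g₅
            · exact g₅
            · exact absurd (e35 ▸ Finset.mem_image_of_mem u m3) (hYl i₅ g₅).2.2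
          have m2 : i₂ ∈ X := by
            rcases g₂ with g₂ | g₂
            · exact g₂
            · have := hXl i₃ m3
              have := (hYl i₂ g₂).1
              omega
          have m4 : i₄ ∈ X := by
            rcases g₄ with g₄ | g₄
            · exact g₄
            · have := hXl i₅ m5
              have := (hYl i₄ g₄).1
              omega
          exact h1 i₁ g₁ i₂ m2 i₃ m3 i₄ m4 i₅ m5 l12 l23 l34 l45 e13 e35 e24
        · have hge := (hYl i₁ g₁).1
          have aux : ∀ i, (i ∈ X ∨ i ∈ Y) → i₁ ≤ i → i ∈ Y := by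
            intro i h h'
            rcases h with h | h
            · have := hXl i h
              omega
            · exact h
          exact k3 i₁ g₁ i₂ (aux i₂ g₂ (by omega)) i₃ (aux i₃ g₃ (by omega))
            i₄ (aux i₄ g₄ (by omega)) i₅ (aux i₅ g₅ (by omega)) l12 l23 l34 l45 e13 e35 e24
      · rw [Finset.card_union_of_disjoint hdisj, add_mul, one_mul]
        omega
      · rw [Finset.image_union]
        have := Finset.card_union_le (X.image u) (Y.image u)
        rw [add_mul, one_mul]
        omega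
      · have hmono : ((Finset.range (n * ℓ)).filter fun i => u i ∈ X.image u).card ≤
            ((Finset.range ((n + 1) * ℓ)).filter fun i => u i ∈ (X ∪ Y).image u).card := by
          apply Finset.card_le_card
          intro i hi
          rw [Finset.mem_filter] at hi ⊢
          refine ⟨hrange hi.1, ?_⟩
          rw [Finset.image_union]
          exact Finset.mem_union_left _ hi.2
        have e1 : 3 * ℓ * (n + 1) = 3 * ℓ * n + 3 * ℓ := by ring
        have e2 : 3 * ℓ * (σ + 1) = 3 * ℓ * σ + 3 * ℓ := by ring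
        omega
    · refine ⟨X, hX.trans hrange, σ, h1, h2, h3, ?_⟩
      have hcount : ((Finset.range ((n + 1) * ℓ)).filter fun i => u i ∈ X.image u).card =
          ((Finset.range (n * ℓ)).filter fun i => u i ∈ X.image u).card +
          (V.filter fun i => u i ∈ X.image u).card := by
        rw [← Finset.card_union_of_disjoint, ← Finset.filter_union]
        · congr 1
          congr 1
          ext i
          rw [Finset.mem_union, hV, Finset.mem_range, Finset.mem_range, Finset.mem_Ico]
          have : n * ℓ ≤ (n + 1) * ℓ := Nat.mul_le_mul_right _ (Nat.le_succ _)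
          omega
        · apply Finset.disjoint_filter_filter
          rw [Finset.disjoint_left]
          intro i hi hi'
          rw [Finset.mem_range] at hi
          rw [hV, Finset.mem_Ico] at hi'
          omega
      have hVs := Finset.card_filter_add_card_filter_not (s := V) (fun i => u i ∈ X.image u)
      have hGe : (V.filter fun i => ¬ u i ∈ X.image u).card = G.card := rfl
      have e1 : 3 * ℓ * (n + 1) = 3 * ℓ * n + 3 * ℓ := by ring
      omega

end Pool.Agent.Work.MP_79a1cb_co
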