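import Mathlib
import Pool.Agent.Work.MP_79a1cb_co.Windows

namespace Pool.Agent.Work.MP_79a1cb_co

open Finset

/-- The combinatorial main theorem. -/
theorem main_comb (C : ℕ) (hC : 0 < C) : ∃ m0 : ℕ, ∀ m ≥ m0,
    ∀ (α : Type) [DecidableEq α] (u : ℕ → α), ∃ X ⊆ Finset.range m, Free5 u X ∧
      C * (Nat.sqrt m + 1) ≤ X.card := by
  classical
  set D := 128 * C ^ 2 with hDdef
  have hD : 0 < D := by positivity
  obtain ⟨s, R, hs, hcore⟩ := core D hD
  refine ⟨(32 * s * C + D * R + 1) ^ 2, ?_⟩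
  intro m hm α _ u
  set q := Nat.sqrt m with hq
  have hq1 : 32 * s * C + D * R + 1 ≤ q := by
    rw [hq, Nat.le_sqrt]
    rw [pow_two] at hm
    exact hm
  have hq2 : q * q ≤ m := Nat.sqrt_le m
  set Q := C * (q + 1) with hQ
  have hQ0 : 0 < Q := by positivity
  have hQq : Q ≤ 2 * C * q := by
    rw [hQ]
    have : q + 1 ≤ 2 * q := by omega
    calc C * (q + 1) ≤ C * (2 * q) := Nat.mul_le_mul_left _ this
      _ = 2 * C * q := by ring
  have hDR : D * R ≤ Q := by
    rw [hQ]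
    calc D * R ≤ 1 * (q + 1) := by omega
      _ ≤ C * (q + 1) := Nat.mul_le_mul_right _ hC
  -- case 1
  by_cases h1 : Q ≤ ((Finset.range m).image u).card
  · -- many letters
    have hex : ∀ a : α, ∃ i, a ∈ (Finset.range m).image u → i ∈ Finset.range m ∧ u i = a := by
      intro a
      by_cases ha : a ∈ (Finset.range m).image u
      · obtain ⟨i, hi, h⟩ := Finset.mem_image.mp ha
        exact ⟨i, fun _ => ⟨hi, h⟩⟩
      · exact ⟨0, fun h => absurd h ha⟩
    choose pos hpos using hex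
    refine ⟨((Finset.range m).image u).image pos, ?_, ?_, ?_⟩
    · intro i hi
      obtain ⟨a, ha, rfl⟩ := Finset.mem_image.mp hi
      exact (hpos a ha).1
    · intro i₁ g₁ i₂ g₂ i₃ g₃ i₄ g₄ i₅ g₅ l12 l23 l34 l45 e13 e35 e24
      exfalso
      obtain ⟨a, ha, rfl⟩ := Finset.mem_image.mp g₁
      obtain ⟨b, hb, rfl⟩ := Finset.mem_image.mp g₃
      rw [(hpos a ha).2, (hpos b hb).2] at e13
      rw [e13] at l12
      omega
    · rw [Finset.card_image_of_injOn]
      · exact h1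
      · intro a ha b hb h
        rw [← (hpos a ha).2, ← (hpos b hb).2, h]
  push Not at h1
  -- case 2
  by_cases h2 : ∃ a, Q ≤ ((Finset.range m).filter fun i => u i = a).card
  · obtain ⟨a, ha⟩ := h2
    refine ⟨(Finset.range m).filter fun i => u i = a, Finset.filter_subset _ _, ?_, ha⟩
    intro i₁ g₁ i₂ g₂ _ _ _ _ _ _ _ _ _ _ _ _ _
    rw [(Finset.mem_filter.mp g₁).2, (Finset.mem_filter.mp g₂).2]
  push Not at h2
  -- case 3
  set ℓ := 8 * s * Q with hℓ
  have hℓ0 : 0 < ℓ := by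
    rw [hℓ]
    have : 0 < s := by omega
    positivity
  set W := m / ℓ with hW
  have hWm : W * ℓ ≤ m := Nat.div_mul_le_self m ℓ
  have hWm2 : m < W * ℓ + ℓ := by
    have := Nat.lt_div_mul_add (a := m) hℓ0
    rw [hW]
    exact this
  have hrm : Finset.range (W * ℓ) ⊆ Finset.range m := Finset.range_subset_range.mpr hWm
  obtain ⟨X, hX, σ, k1, k2, k3, k4⟩ := greedy D s ℓ u W (by
    intro G hG hGc
    refine window D hD hs (hcore α) u Q hDR G ?_ ?_
    · rw [hℓ] at hGc
      have : 8 * s * Q = 4 * (2 * s * Q) := by ring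
      omega
    · exact (Finset.card_le_card (Finset.image_subset_image (hG.trans hrm))).trans h1.le) W le_rfl
  refine ⟨X, hX.trans hrm, k1, ?_⟩
  -- counting
  have hcount : ((Finset.range (W * ℓ)).filter fun i => u i ∈ X.image u).card ≤
      (X.image u).card * Q := by
    have h3 := Finset.card_eq_sum_card_fiberwise
      (s := (Finset.range (W * ℓ)).filter fun i => u i ∈ X.image u) (f := u) (t := X.image u)
      (fun i hi => (Finset.mem_filter.mp (Finset.mem_coe.mp hi)).2)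
    rw [h3]
    calc _ ≤ ∑ a ∈ X.image u, Q := by
          apply Finset.sum_le_sum
          intro a _
          refine (Finset.card_le_card ?_).trans (h2 a).le
          intro i hi
          rw [Finset.mem_filter, Finset.mem_filter] at hi
          rw [Finset.mem_filter]
          exact ⟨hrm hi.1.1, hi.2⟩
      _ = (X.image u).card * Q := by rw [Finset.sum_const, smul_eq_mul]
  have e1 : 4 * ((X.image u).card * Q) ≤ σ * s * Q := by
    calc 4 * ((X.image u).card * Q) = 4 * (X.image u).card * Q := by ring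
      _ ≤ σ * s * Q := Nat.mul_le_mul_right _ k3
  have e2 : 3 * ℓ * W ≤ σ * s * Q + 3 * ℓ * σ := by omega
  have e3 : 24 * (s * Q) * W ≤ 25 * (s * Q) * σ := by
    have a1 : 3 * ℓ * W = 24 * (s * Q) * W := by rw [hℓ]; ring
    have a2 : σ * s * Q + 3 * ℓ * σ = 25 * (s * Q) * σ := by rw [hℓ]; ring
    omega
  have hsQ : 0 < s * Q := Nat.mul_pos (by omega) hQ0
  have e4 : 24 * W ≤ 25 * σ := by
    have a1 : 24 * (s * Q) * W = (s * Q) * (24 * W) := by ring
    have a2 : 25 * (s * Q) * σ = (s * Q) * (25 * σ) := by ring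
    rw [a1, a2] at e3
    exact Nat.le_of_mul_le_mul_left e3 hsQ
  -- m ≥ 16 s Q
  have e5 : 2 * ℓ ≤ m := by
    calc 2 * ℓ = 16 * s * Q := by rw [hℓ]; ring
      _ ≤ 16 * s * (2 * C * q) := Nat.mul_le_mul_left _ hQq
      _ = 32 * s * C * q := by ring
      _ ≤ q * q := Nat.mul_le_mul_right _ (by omega)
      _ ≤ m := hq2
  have e6 : m ≤ 2 * (W * ℓ) := by omega
  have e7 : Q * Q ≤ 4 * C ^ 2 * m := by
    calc Q * Q ≤ (2 * C * q) * (2 * C * q) := Nat.mul_le_mul hQq hQq
      _ = 4 * C ^ 2 * (q * q) := by ring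
      _ ≤ 4 * C ^ 2 * m := Nat.mul_le_mul_left _ hq2
  have e8 : 24 * W * (D * s) ≤ 25 * X.card := by
    calc 24 * W * (D * s) ≤ 25 * σ * (D * s) := Nat.mul_le_mul_right _ e4
      _ = 25 * (σ * (D * s)) := by ring
      _ ≤ 25 * X.card := Nat.mul_le_mul_left _ k2
  -- 25 |X| Q ≥ 24 W D s Q = 3 D (W ℓ) ≥ 3 D m / 2
  have e9 : 3 * D * m ≤ 50 * (X.card * Q) := by
    calc 3 * D * m ≤ 3 * D * (2 * (W * ℓ)) := Nat.mul_le_mul_left _ e6
      _ = 2 * (24 * W * (D * s)) * Q := by rw [hℓ]; ring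
      _ ≤ 2 * (25 * X.card) * Q := Nat.mul_le_mul_right _ (Nat.mul_le_mul_left _ e8)
      _ = 50 * (X.card * Q) := by ring
  have e10 : 50 * (Q * Q) ≤ 50 * (X.card * Q) := by
    calc 50 * (Q * Q) ≤ 50 * (4 * C ^ 2 * m) := Nat.mul_le_mul_left _ e7
      _ = 200 * (C ^ 2 * m) := by ring
      _ ≤ 384 * (C ^ 2 * m) := Nat.mul_le_mul_right _ (by norm_num)
      _ = 3 * D * m := by rw [hDdef]; ring
      _ ≤ 50 * (X.card * Q) := e9
  exact Nat.le_of_mul_le_mul_right (Nat.le_of_mul_le_mul_left e10 (by norm_num)) hQ0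

end Pool.Agent.Work.MP_79a1cb_co
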