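import Mathlib
import Pool.Agent.Work.MP_79a1cb_co.Defs
import Pool.Agent.Work.MP_79a1cb_co.MainComb

namespace Pool.Agent.Work.MP_79a1cb_co

open Finset

/-- `LSS` is at least the length of every free subsequence. -/
lemma le_LSS {α β : Type} {m n : ℕ} (u : Fin m → α) (v : Fin n → β) (l : ℕ) (f : Fin l → Fin m)
    (hf : StrictMono f) (h : IsFree (u ∘ f) v) : l ≤ LSS u v := by
  apply le_csSup
  · refine ⟨m, ?_⟩
    rintro l' ⟨g, hg, _⟩
    have := Fintype.card_le_of_injective g hg.injective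
    simpa using this
  · exact ⟨f, hf, h⟩

lemma free_of_free5 {α : Type} {m n : ℕ} (hn : 5 ≤ n) (u : Fin m → α) (X : Finset ℕ)
    (hX : X ⊆ Finset.range m)
    (hfree : Free5 (fun i => if h : i < m then some (u ⟨i, h⟩) else none) X) :
    X.card ≤ LSS u (alt n) := by
  classical
  have hlt : ∀ j : Fin X.card, X.orderEmbOfFin rfl j < m := fun j =>
    Finset.mem_range.mp (hX (X.orderEmbOfFin_mem rfl j))
  refine le_LSS u (alt n) X.card (fun j => ⟨X.orderEmbOfFin rfl j, hlt j⟩) ?_ ?_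
  · intro i j hij
    exact (X.orderEmbOfFin rfl).strictMono hij
  · intro g hg hiso
    obtain ⟨ρ, hinj, hρ⟩ := hiso
    have key : ∀ i j : Fin n, alt n i = alt n j →
        u ⟨X.orderEmbOfFin rfl (g i), hlt _⟩ = u ⟨X.orderEmbOfFin rfl (g j), hlt _⟩ := by
      intro i j hij
      have h1 := hρ i
      have h2 := hρ j
      rw [hij, ← h2] at h1
      exact hinj ⟨i, rfl⟩ ⟨j, rfl⟩ h1
    have h01 : u ⟨X.orderEmbOfFin rfl (g ⟨0, by omega⟩), hlt _⟩ ≠
        u ⟨X.orderEmbOfFin rfl (g ⟨1, by omega⟩), hlt _⟩ := by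
      intro h
      have h1 := hρ ⟨0, by omega⟩
      have h2 := hρ ⟨1, by omega⟩
      simp only [Function.comp_apply] at h1 h2
      rw [h] at h1
      rw [h1] at h2
      simp [alt] at h2
    have hmem : ∀ j : Fin n, (X.orderEmbOfFin rfl (g j) : ℕ) ∈ X := fun j =>
      X.orderEmbOfFin_mem rfl _
    have hmono : ∀ i j : Fin n, i < j →
        (X.orderEmbOfFin rfl (g i) : ℕ) < X.orderEmbOfFin rfl (g j) := fun i j hij =>
      (X.orderEmbOfFin rfl).strictMono (hg hij)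
    have hval : ∀ j : Fin n, (fun i => if h : i < m then some (u ⟨i, h⟩) else none)
        (X.orderEmbOfFin rfl (g j) : ℕ) = some (u ⟨X.orderEmbOfFin rfl (g j), hlt _⟩) := by
      intro j
      simp only [hlt (g j), dif_pos]
    have hfin := hfree _ (hmem ⟨0, by omega⟩) _ (hmem ⟨1, by omega⟩) _ (hmem ⟨2, by omega⟩)
      _ (hmem ⟨3, by omega⟩) _ (hmem ⟨4, by omega⟩)
      (hmono _ _ (by simp [Fin.lt_def])) (hmono _ _ (by simp [Fin.lt_def]))
      (hmono _ _ (by simp [Fin.lt_def])) (hmono _ _ (by simp [Fin.lt_def]))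
      (by rw [hval, hval, key ⟨0, by omega⟩ ⟨2, by omega⟩ (by simp [alt])])
      (by rw [hval, hval, key ⟨2, by omega⟩ ⟨4, by omega⟩ (by simp [alt])])
      (by rw [hval, hval, key ⟨1, by omega⟩ ⟨3, by omega⟩ (by simp [alt])])
    rw [hval, hval] at hfin
    exact h01 (Option.some_injective _ hfin)

/-- The bound for `ss`. -/
theorem ss_lower (C : ℕ) (hC : 0 < C) : ∃ m0 : ℕ, ∀ m ≥ m0, ∀ n ≥ 5,
    C * (Nat.sqrt m + 1) ≤ ss m (alt n) := by
  classical
  obtain ⟨m0, hm0⟩ := main_comb C hC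
  refine ⟨m0, fun m hm n hn => ?_⟩
  apply le_csInf
  · exact ⟨_, ℕ, fun _ => 0, rfl⟩
  · rintro l ⟨α, u, rfl⟩
    obtain ⟨X, hX, hfree, hcard⟩ := hm0 m hm (Option α)
      (fun i => if h : i < m then some (u ⟨i, h⟩) else none)
    exact hcard.trans (free_of_free5 hn u X hX hfree)

theorem main (n : ℕ) (hn : 5 ≤ n) :
    Filter.Tendsto (fun m : ℕ => (ss m (alt n) : ℝ) / √(m : ℝ)) Filter.atTop Filter.atTop := by
  rw [Filter.tendsto_atTop]
  intro b
  obtain ⟨m0, hm0⟩ := ss_lower (⌈b⌉₊ + 1) (Nat.succ_pos _)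
  rw [Filter.eventually_atTop]
  refine ⟨max m0 1, fun m hm => ?_⟩
  have h1 := hm0 m (le_trans (le_max_left _ _) hm) n hn
  have hm1 : 1 ≤ m := le_trans (le_max_right _ _) hm
  have hpos : 0 < √(m : ℝ) := Real.sqrt_pos.mpr (by exact_mod_cast hm1)
  rw [le_div_iff₀ hpos]
  have h2 : √(m : ℝ) < Nat.sqrt m + 1 := Real.real_sqrt_lt_nat_sqrt_succ
  have h3 : ((⌈b⌉₊ + 1 : ℕ) : ℝ) * ((Nat.sqrt m + 1 : ℕ) : ℝ) ≤ (ss m (alt n) : ℝ) := by
    exact_mod_cast h1
  have h4 : b ≤ ((⌈b⌉₊ + 1 : ℕ) : ℝ) := by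
    push_cast
    exact (Nat.le_ceil b).trans (by linarith)
  calc b * √(m : ℝ) ≤ ((⌈b⌉₊ + 1 : ℕ) : ℝ) * √(m : ℝ) :=
        mul_le_mul_of_nonneg_right h4 hpos.le
    _ ≤ ((⌈b⌉₊ + 1 : ℕ) : ℝ) * ((Nat.sqrt m + 1 : ℕ) : ℝ) := by
        apply mul_le_mul_of_nonneg_left _ (Nat.cast_nonneg _)
        push_cast
        exact h2.le
    _ ≤ _ := h3

end Pool.Agent.Work.MP_79a1cb_co
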